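import Pool.Agent.Lib.MP_fed790_nt.W.Defs
import Pool.Agent.Lib.MP_fed790_nt.C2

/-! Job C2w -/

namespace Pool.Agent.Lib.MP_fed790_nt

open Finset

/-- (Job C2w) Weighted version of `wt_le` (`C2.lean`; copy its proof).
Proof. `wt β n = ∑ v_p(n) β(p)`; primes `p ≤ P`: at most `WS a P n`; primes `P < p ≤ Q`:
`β p ≤ a p ≤ 2`, and `(∑_{P<p} v_p(n)) log P ≤ log n`; primes `p > Q`: `β p ≤ N` and
`(∑_{Q<p} v_p(n)) log Q ≤ log n`. -/
theorem wtw_le (a β : ℕ → ℕ) (P Q N : ℕ) (hP : 2 ≤ P) (hPQ : P ≤ Q) (ha : ∀ p, a p ≤ 2)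
    (h1 : ∀ p ≤ Q, β p ≤ a p) (h2 : ∀ p, β p ≤ N) (n : ℕ) (hn : n ≠ 0) :
    (wt β n : ℝ) ≤ WS a P n + 2 * (Real.log n / Real.log P) + N * (Real.log n / Real.log Q) := by
  have hP' : (2 : ℝ) ≤ P := by exact_mod_cast hP
  have hQ' : (2 : ℝ) ≤ Q := by exact_mod_cast hP.trans hPQ
  have hlP : 0 < Real.log P := Real.log_pos (by linarith)
  have hlQ : 0 < Real.log Q := Real.log_pos (by linarith)
  have hlog : Real.log n = ∑ p ∈ n.primeFactors, (n.factorization p : ℝ) * Real.log p := by
    conv_lhs => rw [← Nat.prod_factorization_pow_eq_self hn]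
    rw [Finsupp.prod, Nat.support_factorization, Nat.cast_prod, Real.log_prod]
    · refine Finset.sum_congr rfl fun p _ => ?_
      rw [Nat.cast_pow, Real.log_pow]
    · intro p hp
      have hp' := Nat.prime_of_mem_primeFactors hp
      rw [Nat.cast_pow]
      exact pow_ne_zero _ (by exact_mod_cast hp'.ne_zero)
  have hOm : (∑ p ∈ n.primeFactors,
      (if p ≤ P then (n.factorization p : ℝ) * (a p : ℝ) else 0)) ≤ (WS a P n : ℝ) := by
    unfold WS
    rw [← Finset.sum_filter, Nat.cast_sum]
    rw [Finset.sum_congr rfl (fun p _ => (Nat.cast_mul (n.factorization p) (a p)).symm)]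
    refine Finset.sum_le_sum_of_subset_of_nonneg ?_ (fun _ _ _ => Nat.cast_nonneg _)
    intro p hp
    rw [Finset.mem_filter] at hp
    exact mem_PS.2 ⟨hp.2, Nat.prime_of_mem_primeFactors hp.1⟩
  have hpt : ∀ p ∈ n.primeFactors, ((n.factorization p * β p : ℕ) : ℝ) ≤
      (if p ≤ P then (n.factorization p : ℝ) * (a p : ℝ) else 0) +
      2 * (((n.factorization p : ℝ) * Real.log p) / Real.log P) +
      N * (((n.factorization p : ℝ) * Real.log p) / Real.log Q) := by
    intro p hp
    have hp' := Nat.prime_of_mem_primeFactors hp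
    have hp1 : (1 : ℝ) ≤ p := by exact_mod_cast hp'.one_lt.le
    have hlp : 0 ≤ Real.log p := Real.log_nonneg hp1
    have hv : (0 : ℝ) ≤ (n.factorization p : ℝ) := Nat.cast_nonneg _
    have hN : (0 : ℝ) ≤ (N : ℝ) := Nat.cast_nonneg _
    have t1 : 0 ≤ ((n.factorization p : ℝ) * Real.log p) / Real.log P :=
      div_nonneg (mul_nonneg hv hlp) hlP.le
    have t2 : 0 ≤ (N : ℝ) * (((n.factorization p : ℝ) * Real.log p) / Real.log Q) :=
      mul_nonneg hN (div_nonneg (mul_nonneg hv hlp) hlQ.le)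
    rw [Nat.cast_mul]
    by_cases hpP : p ≤ P
    · rw [if_pos hpP]
      have hb : (β p : ℝ) ≤ a p := by exact_mod_cast h1 p (hpP.trans hPQ)
      have : (n.factorization p : ℝ) * β p ≤ (n.factorization p : ℝ) * a p :=
        mul_le_mul_of_nonneg_left hb hv
      linarith
    · rw [if_neg hpP]
      push Not at hpP
      by_cases hpQ : p ≤ Q
      · have hb : (β p : ℝ) ≤ 2 := by exact_mod_cast (h1 p hpQ).trans (ha p)
        have e1 : (n.factorization p : ℝ) * β p ≤ (n.factorization p : ℝ) * 2 :=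
          mul_le_mul_of_nonneg_left hb hv
        have hlPp : Real.log P ≤ Real.log p :=
          Real.log_le_log (by linarith) (by exact_mod_cast hpP.le)
        have e2 : (n.factorization p : ℝ) ≤ ((n.factorization p : ℝ) * Real.log p) / Real.log P := by
          rw [le_div_iff₀ hlP]
          exact mul_le_mul_of_nonneg_left hlPp hv
        linarith
      · push Not at hpQ
        have hb : (β p : ℝ) ≤ (N : ℝ) := by exact_mod_cast h2 p
        have e1 : (n.factorization p : ℝ) * β p ≤ (n.factorization p : ℝ) * (N : ℝ) :=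
          mul_le_mul_of_nonneg_left hb hv
        have hlQp : Real.log Q ≤ Real.log p :=
          Real.log_le_log (by linarith) (by exact_mod_cast hpQ.le)
        have e2 : (n.factorization p : ℝ) ≤ ((n.factorization p : ℝ) * Real.log p) / Real.log Q := by
          rw [le_div_iff₀ hlQ]
          exact mul_le_mul_of_nonneg_left hlQp hv
        have e3 : (N : ℝ) * (n.factorization p : ℝ) ≤
            (N : ℝ) * (((n.factorization p : ℝ) * Real.log p) / Real.log Q) :=
          mul_le_mul_of_nonneg_left e2 hN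
        linarith
  rw [wt_eq_sum, Nat.cast_sum]
  calc ∑ p ∈ n.primeFactors, ((n.factorization p * β p : ℕ) : ℝ)
      ≤ ∑ p ∈ n.primeFactors, ((if p ≤ P then (n.factorization p : ℝ) * (a p : ℝ) else 0) +
        2 * (((n.factorization p : ℝ) * Real.log p) / Real.log P) +
        N * (((n.factorization p : ℝ) * Real.log p) / Real.log Q)) := Finset.sum_le_sum hpt
    _ = (∑ p ∈ n.primeFactors, (if p ≤ P then (n.factorization p : ℝ) * (a p : ℝ) else 0)) +
        2 * (Real.log n / Real.log P) + N * (Real.log n / Real.log Q) := by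
      rw [Finset.sum_add_distrib, Finset.sum_add_distrib, ← Finset.mul_sum, ← Finset.mul_sum,
        ← Finset.sum_div, ← Finset.sum_div, ← hlog]
    _ ≤ _ := by linarith

end Pool.Agent.Lib.MP_fed790_nt
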