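import Pool.Agent.Lib.MP_fed790_nt.W.Defs
import Pool.Agent.Lib.MP_fed790_nt.C4

/-! Job C4w -/

namespace Pool.Agent.Lib.MP_fed790_nt

open Finset

/-- (Job C4w) Weighted version of `gap_core` (`C4.lean`; copy its proof).
Proof. As for `gap_core`: `v(p,i) = (n+i).factorization p`, `I p < m` an argmax; for `i ≠ I p`,
`v(p,i) < m`, so with `S_i = {p ∈ PS P, I p = i}`,
`K + 2 m card ≤ ∑_{p ∈ PS P} v(p,i) a(p) ≤ ∑_{p ∈ S_i} v(p,i) a(p) + 2 m card`, so
`K ≤ ∑_{p ∈ S_i} v(p,i) a(p)`; `S_i` is nonempty; let `s i ∈ S_i` MINIMISE `log p / a p` on `S_i`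
(`Finset.exists_min_image`).  Then
`∑_{p ∈ S_i} v(p,i) log p = ∑ (v(p,i) a(p)) (log p / a p) ≥ K * (log (s i) / a (s i))`, and the sum
over `i` of the right sides is `≥ K Γ` by `LowSum`.  The rest (divisibility of `n' - n` by
`∏ p ^ u p`) is unchanged. -/
theorem gapw_core (m P : ℕ) (a : ℕ → ℕ) (ha : ∀ p, a p = 1 ∨ a p = 2) (n n' : ℕ) (hn : 1 ≤ n)
    (hnn' : n < n') (K H Γ : ℝ) (hK : 0 < K) (hH : 0 ≤ H) (hΓ : LowSum m a Γ)
    (hOm : ∀ i < m, K + 2 * m * (PS P).card ≤ WS a P (n + i))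
    (hclose : ∀ i < m, ∀ p ∈ PS P,
      ((n + i).factorization p : ℝ) ≤ (n' + i).factorization p + H) :
    K * Γ - H * (∑ p ∈ PS P, Real.log (p : ℝ)) ≤ Real.log ((n' : ℝ) - n) := by
  classical
  have hd1 : (1 : ℝ) ≤ (n' : ℝ) - n := by
    have : (n : ℝ) + 1 ≤ n' := by exact_mod_cast hnn'
    linarith
  have hlogp : ∀ p ∈ PS P, 0 ≤ Real.log (p : ℝ) := fun p _ => Real.log_natCast_nonneg p
  have ha0 : ∀ p, (0 : ℝ) < (a p : ℝ) := fun p => by
    rcases ha p with h | h <;> rw [h] <;> norm_num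
  have ha2 : ∀ p, a p ≤ 2 := fun p => by
    rcases ha p with h | h <;> omega
  rcases Nat.eq_zero_or_pos m with rfl | hm
  · have h0 : Γ ≤ 0 := by
      have h := hΓ (fun i => i) (fun i hi => absurd hi (Nat.not_lt_zero i))
        (fun i hi => absurd hi (Nat.not_lt_zero i))
      simpa using h
    have h1 : 0 ≤ H * ∑ p ∈ PS P, Real.log (p : ℝ) := mul_nonneg hH (Finset.sum_nonneg hlogp)
    have h2 := Real.log_nonneg hd1
    have h3 : K * Γ ≤ 0 := mul_nonpos_of_nonneg_of_nonpos hK.le h0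
    linarith
  -- choose maximisers
  have hI : ∀ p : ℕ, ∃ i ∈ range m, ∀ j ∈ range m,
      (n + j).factorization p ≤ (n + i).factorization p := fun p =>
    Finset.exists_max_image (range m) (fun i => (n + i).factorization p)
      ⟨0, Finset.mem_range.2 hm⟩
  choose I hIm hImax using hI
  let v : ℕ → ℕ → ℕ := fun p i => (n + i).factorization p
  let S : ℕ → Finset ℕ := fun i => (PS P).filter (fun p => I p = i)
  -- step 1
  have h1 : ∀ i < m, K ≤ ∑ p ∈ S i, (v p i : ℝ) * (a p : ℝ) := by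
    intro i hi
    have hlt : ∀ p ∈ PS P, I p ≠ i → v p i ≤ m := by
      intro p hp hne
      exact (factorization_lt_of_le hn hi (Finset.mem_range.1 (hIm p)) (Ne.symm hne)
        (mem_PS.1 hp).2 (hImax p i (Finset.mem_range.2 hi))).le
    have h2 := hOm i hi
    have h3 : (WS a P (n + i) : ℝ) = ∑ p ∈ PS P, (v p i : ℝ) * (a p : ℝ) := by
      simp only [WS, v]; push_cast; rfl
    have h4 : ∑ p ∈ PS P, (v p i : ℝ) * (a p : ℝ) = ∑ p ∈ S i, (v p i : ℝ) * (a p : ℝ)
        + ∑ p ∈ (PS P).filter (fun p => ¬ I p = i), (v p i : ℝ) * (a p : ℝ) :=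
      (Finset.sum_filter_add_sum_filter_not _ _ _).symm
    have h5 : ∑ p ∈ (PS P).filter (fun p => ¬ I p = i), (v p i : ℝ) * (a p : ℝ) ≤
        2 * m * (PS P).card := by
      calc ∑ p ∈ (PS P).filter (fun p => ¬ I p = i), (v p i : ℝ) * (a p : ℝ)
          ≤ ∑ p ∈ (PS P).filter (fun p => ¬ I p = i), ((m : ℝ) * 2) :=
            Finset.sum_le_sum fun p hp => by
              rw [Finset.mem_filter] at hp
              exact mul_le_mul (by exact_mod_cast hlt p hp.1 hp.2) (by exact_mod_cast ha2 p)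
                (ha0 p).le (Nat.cast_nonneg m)
        _ = ((PS P).filter (fun p => ¬ I p = i)).card * ((m : ℝ) * 2) := by
            rw [Finset.sum_const, nsmul_eq_mul]
        _ ≤ (PS P).card * ((m : ℝ) * 2) := by
            refine mul_le_mul_of_nonneg_right ?_ (by positivity)
            exact_mod_cast Finset.card_filter_le _ _
        _ = _ := by ring
    linarith
  have hne : ∀ i < m, (S i).Nonempty := by
    intro i hi
    by_contra hc
    rw [Finset.not_nonempty_iff_eq_empty] at hc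
    have h2 := h1 i hi
    rw [hc, Finset.sum_empty] at h2
    linarith
  have hex : ∀ i : ℕ, ∃ q : ℕ, i < m → q ∈ S i ∧ ∀ p ∈ S i,
      Real.log (q : ℝ) / (a q : ℝ) ≤ Real.log (p : ℝ) / (a p : ℝ) := by
    intro i
    by_cases hi : i < m
    · obtain ⟨q, hq, hmin⟩ := Finset.exists_min_image (S i)
        (fun p : ℕ => Real.log (p : ℝ) / (a p : ℝ)) (hne i hi)
      exact ⟨q, fun _ => ⟨hq, hmin⟩⟩
    · exact ⟨0, fun h => absurd h hi⟩
  choose s hs' using hex
  have hs : ∀ i < m, s i ∈ S i := fun i hi => (hs' i hi).1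
  have hsmin : ∀ i < m, ∀ p ∈ S i,
      Real.log (s i : ℝ) / (a (s i) : ℝ) ≤ Real.log (p : ℝ) / (a p : ℝ) := fun i hi => (hs' i hi).2
  have hsP : ∀ i < m, s i ∈ PS P := fun i hi => (Finset.mem_filter.1 (hs i hi)).1
  have hsp : ∀ i < m, (s i).Prime := fun i hi => (mem_PS.1 (hsP i hi)).2
  have hsinj : ∀ i < m, ∀ j < m, s i = s j → i = j := by
    intro i hi j hj h
    have e1 : I (s i) = i := (Finset.mem_filter.1 (hs i hi)).2
    have e2 : I (s j) = j := (Finset.mem_filter.1 (hs j hj)).2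
    rw [h, e2] at e1
    exact e1.symm
  -- step 2
  have h6 : ∀ i ∈ range m, K * (Real.log (s i : ℝ) / (a (s i) : ℝ)) ≤
      ∑ p ∈ S i, (v p i : ℝ) * Real.log p := by
    intro i hi
    have hi' := Finset.mem_range.1 hi
    have hl : 0 ≤ Real.log (s i : ℝ) / (a (s i) : ℝ) :=
      div_nonneg (Real.log_natCast_nonneg _) (ha0 _).le
    calc K * (Real.log (s i : ℝ) / (a (s i) : ℝ))
        ≤ (∑ p ∈ S i, (v p i : ℝ) * (a p : ℝ)) * (Real.log (s i : ℝ) / (a (s i) : ℝ)) :=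
          mul_le_mul_of_nonneg_right (h1 i hi') hl
      _ = ∑ p ∈ S i, (v p i : ℝ) * (a p : ℝ) * (Real.log (s i : ℝ) / (a (s i) : ℝ)) :=
          Finset.sum_mul _ _ _
      _ ≤ ∑ p ∈ S i, (v p i : ℝ) * (a p : ℝ) * (Real.log (p : ℝ) / (a p : ℝ)) :=
          Finset.sum_le_sum fun p hp => mul_le_mul_of_nonneg_left (hsmin i hi' p hp)
            (mul_nonneg (Nat.cast_nonneg _) (ha0 p).le)
      _ = ∑ p ∈ S i, (v p i : ℝ) * Real.log p := by
          refine Finset.sum_congr rfl fun p _ => ?_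
          have := (ha0 p).ne'
          field_simp
  have h7 : K * Γ ≤ ∑ p ∈ PS P, (v p (I p) : ℝ) * Real.log p := by
    calc K * Γ ≤ K * ∑ i ∈ range m, Real.log (s i : ℝ) / (a (s i) : ℝ) :=
          mul_le_mul_of_nonneg_left (hΓ s hsp hsinj) hK.le
      _ = ∑ i ∈ range m, K * (Real.log (s i : ℝ) / (a (s i) : ℝ)) := Finset.mul_sum _ _ _
      _ ≤ ∑ i ∈ range m, ∑ p ∈ S i, (v p i : ℝ) * Real.log p := Finset.sum_le_sum h6
      _ = ∑ i ∈ range m, ∑ p ∈ S i, (v p (I p) : ℝ) * Real.log p := by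
          refine Finset.sum_congr rfl fun i _ => Finset.sum_congr rfl fun p hp => ?_
          rw [(Finset.mem_filter.1 hp).2]
      _ = ∑ p ∈ PS P, (v p (I p) : ℝ) * Real.log p :=
          Finset.sum_fiberwise_of_maps_to (fun p _ => hIm p) _
  -- step 3
  let u : ℕ → ℕ := fun p => min (v p (I p)) ((n' + I p).factorization p)
  have hdiv : ∀ p ∈ PS P, p ^ u p ∣ n' - n := by
    intro p _
    have a1 : p ^ u p ∣ n + I p :=
      (pow_dvd_pow p (min_le_left _ _)).trans (Nat.ordProj_dvd (n + I p) p)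
    have a2 : p ^ u p ∣ n' + I p :=
      (pow_dvd_pow p (min_le_right _ _)).trans (Nat.ordProj_dvd (n' + I p) p)
    have a3 : n' - n = (n' + I p) - (n + I p) := by omega
    rw [a3]
    exact Nat.dvd_sub a2 a1
  have h8 : ∏ p ∈ PS P, p ^ u p ∣ n' - n := by
    refine Finset.prod_dvd_of_isRelPrime ?_ hdiv
    intro p hp q hq hpq
    have hp' := (mem_PS.1 (Finset.mem_coe.1 hp)).2
    have hq' := (mem_PS.1 (Finset.mem_coe.1 hq)).2
    have hc : Nat.Coprime (p ^ u p) (q ^ u q) :=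
      Nat.Coprime.pow _ _ ((Nat.coprime_primes hp' hq').2 hpq)
    exact Nat.coprime_iff_isRelPrime.1 hc
  have hpos : 0 < n' - n := by omega
  have h9 : ∑ p ∈ PS P, (u p : ℝ) * Real.log p ≤ Real.log ((n' : ℝ) - n) := by
    have hle := Nat.le_of_dvd hpos h8
    have e1 : Real.log ((∏ p ∈ PS P, p ^ u p : ℕ) : ℝ) = ∑ p ∈ PS P, (u p : ℝ) * Real.log p := by
      push_cast
      rw [Real.log_prod (fun p hp => ?_)]
      · exact Finset.sum_congr rfl fun p _ => Real.log_pow _ _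
      · exact pow_ne_zero _ (by exact_mod_cast (mem_PS.1 hp).2.ne_zero)
    rw [← e1]
    have e2 : ((n' - n : ℕ) : ℝ) = (n' : ℝ) - n := by
      rw [Nat.cast_sub hnn'.le]
    rw [← e2]
    refine Real.log_le_log ?_ (by exact_mod_cast hle)
    have : 0 < ∏ p ∈ PS P, p ^ u p :=
      Finset.prod_pos fun p hp => pow_pos (mem_PS.1 hp).2.pos _
    exact_mod_cast this
  -- step 4
  have h10 : ∑ p ∈ PS P, (v p (I p) : ℝ) * Real.log p - H * ∑ p ∈ PS P, Real.log (p : ℝ)
      ≤ ∑ p ∈ PS P, (u p : ℝ) * Real.log p := by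
    rw [Finset.mul_sum, ← Finset.sum_sub_distrib]
    refine Finset.sum_le_sum fun p hp => ?_
    rw [← sub_mul]
    refine mul_le_mul_of_nonneg_right ?_ (hlogp p hp)
    have a1 := hclose (I p) (Finset.mem_range.1 (hIm p)) p hp
    have a2 : ((u p : ℕ) : ℝ) = min (v p (I p) : ℝ) ((n' + I p).factorization p : ℝ) := by
      simp only [u]; push_cast; rfl
    rw [a2, le_min_iff]
    constructor
    · linarith
    · simp only [v]; linarith
  linarith

end Pool.Agent.Lib.MP_fed790_nt
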