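import Pool.Agent.Lib.MP_fed790_nt.C5
import Pool.Agent.Lib.MP_fed790_nt.W.C4w

/-! Job C5w -/

namespace Pool.Agent.Lib.MP_fed790_nt

open Finset

/-- (Job C5w) Weighted version of `gap` (`C5.lean`; copy its proof), uniform in the weights `a`.
Proof. As for `gap`, with `gapw_core` in place of `gap_core` and `K = (1-δ) k - 2 m (PS P).card`;
the numbers `N` and `k0` are chosen from `m, γ, δ, Γ, P` only (`γ < (1-δ) Γ`, `0 ≤ γ`, `δ < 1`, so
`Γ > 0`).  The bound for the valuations `v_p(n+i) ≤ log(n+i)/log 2` is unchanged. -/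
theorem gapw (m : ℕ) (γ δ Γ : ℝ) (hδ : 0 < δ) (hδ1 : δ < 1) (hγ : 0 ≤ γ)
    (h : γ < (1 - δ) * Γ) (P : ℕ) :
    ∃ N k0 : ℕ, ∀ k ≥ k0, ∀ a : ℕ → ℕ, (∀ p, a p = 1 ∨ a p = 2) → LowSum m a Γ →
      ∀ D : Finset ℕ,
      (∀ n ∈ D, 1 ≤ n ∧ (n : ℝ) < Real.exp (γ * k) ∧ ∀ i < m, (1 - δ) * k ≤ WS a P (n + i)) →
      D.card ≤ N := by
  classical
  have h1δ : 0 < 1 - δ := by linarith
  have hΓ : 0 ≤ Γ := by
    by_contra hcon
    push Not at hcon
    have := mul_pos h1δ (neg_pos.2 hcon)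
    nlinarith
  have hθ : 0 ≤ ∑ p ∈ PS P, Real.log (p : ℝ) :=
    Finset.sum_nonneg fun i _ => Real.log_natCast_nonneg _
  have hgc := gapw_core m P
  generalize (∑ p ∈ PS P, Real.log (p : ℝ)) = θ at hθ hgc
  have hlog2 : 0 < Real.log 2 := Real.log_pos (by norm_num)
  obtain ⟨Δ, hΔdef⟩ : ∃ Δ : ℝ, Δ = (1 - δ) * Γ - γ := ⟨_, rfl⟩
  have hΔ : 0 < Δ := by rw [hΔdef]; linarith
  obtain ⟨η, hηdef⟩ : ∃ η : ℝ, η = Δ / (3 * (θ + 1)) := ⟨_, rfl⟩
  have hη : 0 < η := by rw [hηdef]; positivity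
  have hηθ : η * θ ≤ Δ / 3 := by
    have h1 : η * (θ + 1) = Δ / 3 := by
      rw [hηdef]
      field_simp
    nlinarith
  obtain ⟨Q, hQ⟩ : ∃ Q : ℕ, Q = (PS P).card := ⟨_, rfl⟩
  rw [← hQ] at hgc
  refine ⟨(⌊(γ + 1) / (η * Real.log 2)⌋₊ + 1) ^ (m * Q),
    ⌈Real.log (m + 1)⌉₊ + ⌈(2 * m * Q : ℝ) / (1 - δ)⌉₊ + ⌈(2 * m * Q * Γ : ℝ) / (2 * Δ / 3)⌉₊ + 1, ?_⟩
  intro k hk a ha hLS D hD
  have hkr : ((⌈Real.log (m + 1)⌉₊ + ⌈(2 * m * Q : ℝ) / (1 - δ)⌉₊ + ⌈(2 * m * Q * Γ : ℝ) / (2 * Δ / 3)⌉₊ + 1 : ℕ) : ℝ)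
      ≤ k := by exact_mod_cast hk
  push_cast at hkr
  have hc1 : Real.log (m + 1) ≤ (⌈Real.log (m + 1)⌉₊ : ℝ) := Nat.le_ceil _
  have hc2 : (2 * m * Q : ℝ) / (1 - δ) ≤ (⌈(2 * m * Q : ℝ) / (1 - δ)⌉₊ : ℝ) := Nat.le_ceil _
  have hc3 : (2 * m * Q * Γ : ℝ) / (2 * Δ / 3) ≤ (⌈(2 * m * Q * Γ : ℝ) / (2 * Δ / 3)⌉₊ : ℝ) := Nat.le_ceil _
  have hn1 : (0 : ℝ) ≤ (⌈Real.log (m + 1)⌉₊ : ℝ) := Nat.cast_nonneg _
  have hn2 : (0 : ℝ) ≤ (⌈(2 * m * Q : ℝ) / (1 - δ)⌉₊ : ℝ) := Nat.cast_nonneg _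
  have hn3 : (0 : ℝ) ≤ (⌈(2 * m * Q * Γ : ℝ) / (2 * Δ / 3)⌉₊ : ℝ) := Nat.cast_nonneg _
  have hklog : Real.log (m + 1) ≤ k := by linarith
  have hk2 : (2 * m * Q : ℝ) < (1 - δ) * k := by
    have h1 : (2 * m * Q : ℝ) / (1 - δ) < k := by linarith
    rw [div_lt_iff₀ h1δ] at h1
    linarith
  have hk3 : (2 * m * Q * Γ : ℝ) < k * (2 * Δ / 3) := by
    have h1 : (2 * m * Q * Γ : ℝ) / (2 * Δ / 3) < k := by linarith
    rwa [div_lt_iff₀ (by positivity)] at h1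
  have hk0 : (0 : ℝ) < k := by linarith
  have hηk : 0 < η * k := by positivity
  let f : ℕ → (Fin m × {p // p ∈ PS P}) → ℕ := fun n x =>
    ⌊((n + (x.1 : ℕ)).factorization (x.2 : ℕ) : ℝ) / (η * k)⌋₊
  have hmaps : ∀ n ∈ D, f n ∈ Fintype.piFinset
      (fun _ : Fin m × {p // p ∈ PS P} => range (⌊(γ + 1) / (η * Real.log 2)⌋₊ + 1)) := by
    intro n hn
    obtain ⟨h1, h2, _⟩ := hD n hn
    rw [Fintype.mem_piFinset]
    intro x
    rw [mem_range, Nat.lt_succ_iff]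
    apply Nat.floor_le_floor
    rw [div_le_div_iff₀ hηk (by positivity)]
    have hv : ((n + (x.1 : ℕ)).factorization (x.2 : ℕ) : ℝ) * Real.log 2 ≤ (γ + 1) * k := by
      have h3 : (n + (x.1 : ℕ)).factorization (x.2 : ℕ) ≤ OmS P (n + x.1) := by
        unfold OmS
        exact Finset.single_le_sum (f := fun p => (n + (x.1 : ℕ)).factorization p)
          (fun _ _ => Nat.zero_le _) x.2.2
      have h4 : 2 ^ (n + (x.1 : ℕ)).factorization (x.2 : ℕ) ≤ n + (x.1 : ℕ) :=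
        le_trans (Nat.pow_le_pow_right (by norm_num) h3) (two_pow_OmS_le P _ (by omega))
      have h5 : (2 : ℝ) ^ (n + (x.1 : ℕ)).factorization (x.2 : ℕ) ≤ (n : ℝ) + (x.1 : ℕ) := by
        exact_mod_cast h4
      have h6 : ((n + (x.1 : ℕ)).factorization (x.2 : ℕ) : ℝ) * Real.log 2 ≤
          Real.log ((n : ℝ) + (x.1 : ℕ)) := by
        rw [← Real.log_pow]
        exact Real.log_le_log (by positivity) h5
      have h7 : ((x.1 : ℕ) : ℝ) ≤ m := by exact_mod_cast x.1.2.le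
      have h8 : (1 : ℝ) ≤ Real.exp (γ * k) := Real.one_le_exp (by positivity)
      have hm0 : (0 : ℝ) ≤ m := Nat.cast_nonneg m
      have h9 : (n : ℝ) + (x.1 : ℕ) ≤ (m + 1) * Real.exp (γ * k) := by nlinarith
      have h10 : Real.log ((n : ℝ) + (x.1 : ℕ)) ≤ Real.log (m + 1) + γ * k := by
        have h11 : (0 : ℝ) < (n : ℝ) + (x.1 : ℕ) := by
          have : (1 : ℝ) ≤ n := by exact_mod_cast h1
          have : (0 : ℝ) ≤ (x.1 : ℕ) := Nat.cast_nonneg _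
          linarith
        refine le_trans (Real.log_le_log h11 h9) ?_
        rw [Real.log_mul (by positivity) (Real.exp_pos _).ne', Real.log_exp]
      linarith
    calc ((n + (x.1 : ℕ)).factorization (x.2 : ℕ) : ℝ) * (η * Real.log 2)
        = η * (((n + (x.1 : ℕ)).factorization (x.2 : ℕ) : ℝ) * Real.log 2) := by ring
      _ ≤ η * ((γ + 1) * k) := mul_le_mul_of_nonneg_left hv hη.le
      _ = (γ + 1) * (η * k) := by ring
  have key : ∀ n ∈ D, ∀ n' ∈ D, n < n' → f n = f n' → False := by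
    intro n hn n' hn' hlt hf
    obtain ⟨h1, h2, h3⟩ := hD n hn
    obtain ⟨h1', h2', h3'⟩ := hD n' hn'
    have hcl : ∀ i < m, ∀ p ∈ PS P,
        ((n + i).factorization p : ℝ) ≤ (n' + i).factorization p + η * k := by
      intro i hi p hp
      have h4 : ⌊((n + i).factorization p : ℝ) / (η * k)⌋₊ =
          ⌊((n' + i).factorization p : ℝ) / (η * k)⌋₊ := congrFun hf (⟨i, hi⟩, ⟨p, hp⟩)
      have h5 := Nat.lt_floor_add_one (((n + i).factorization p : ℝ) / (η * k))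
      have h6 : ((⌊((n' + i).factorization p : ℝ) / (η * k)⌋₊ : ℕ) : ℝ) ≤
          ((n' + i).factorization p : ℝ) / (η * k) := Nat.floor_le (by positivity)
      rw [h4] at h5
      have h7 : ((n + i).factorization p : ℝ) / (η * k) <
          ((n' + i).factorization p : ℝ) / (η * k) + 1 := by linarith
      rw [div_add_one hηk.ne', div_lt_div_iff_of_pos_right hηk] at h7
      exact h7.le
    have h4 := hgc a ha n n' h1 hlt ((1 - δ) * k - 2 * m * Q) (η * k) Γ (by linarith) hηk.le hLS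
      (fun i hi => by linarith [h3 i hi]) hcl
    have h5 : (0 : ℝ) < (n' : ℝ) - n := by
      have : (n : ℝ) < n' := by exact_mod_cast hlt
      linarith
    have h6 : Real.log ((n' : ℝ) - n) ≤ γ * k := by
      rw [← Real.log_exp (γ * k)]
      refine Real.log_le_log h5 ?_
      have : (0 : ℝ) ≤ n := Nat.cast_nonneg n
      linarith
    have h7 : k * (η * θ) ≤ k * (Δ / 3) := mul_le_mul_of_nonneg_left hηθ hk0.le
    have h8 : (k : ℝ) * Δ = k * ((1 - δ) * Γ - γ) := by rw [hΔdef]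
    nlinarith
  have hinj : Set.InjOn f (D : Set ℕ) := by
    intro n hn n' hn' hf
    rcases lt_trichotomy n n' with hlt | heq | hlt
    · exact (key n (Finset.mem_coe.1 hn) n' (Finset.mem_coe.1 hn') hlt hf).elim
    · exact heq
    · exact (key n' (Finset.mem_coe.1 hn') n (Finset.mem_coe.1 hn) hlt hf.symm).elim
  refine (Finset.card_le_card_of_injOn f hmaps hinj).trans ?_
  rw [Fintype.card_piFinset]
  simp [hQ]

end Pool.Agent.Lib.MP_fed790_nt
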