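import Pool.Agent.Lib.MP_fed790_nt.W.Defs
import Pool.Agent.Lib.MP_fed790_nt.C7

/-! Job C7w -/

namespace Pool.Agent.Lib.MP_fed790_nt

open Finset

private theorem exists_value_w (k N : ℕ) (D : Finset ℕ) (hD : D.card ≤ N) (A μ : ℕ → ℕ) (a : ℕ)
    (hμ : ∀ n ∈ D, 0 < μ n) (hμk : ∀ n ∈ D, μ n * (2 * N) < k) :
    ∃ y, a ≤ y ∧ y ≤ a + 2 * N ∧ y % 2 = a % 2 ∧ ∀ n ∈ D, ¬ k ∣ A n + μ n * y := by
  obtain ⟨x, hx1, hx2, hx3⟩ := exists_value k N D hD
    (fun n => A n + μ n * a + 2 * μ n * (k - 1)) (fun n => 2 * μ n)
    (fun n hn => by have := hμ n hn; omega)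
    (fun n hn => by
      have := hμk n hn
      have e : 2 * μ n * N = μ n * (2 * N) := by ring
      show 2 * μ n * N < k
      omega)
  refine ⟨a + 2 * (x - 1), by omega, by omega, by omega, ?_⟩
  intro n hn hdv
  apply hx3 n hn
  show k ∣ A n + μ n * a + 2 * μ n * (k - 1) + 2 * μ n * x
  obtain ⟨x', rfl⟩ : ∃ x', x = x' + 1 := ⟨x - 1, by omega⟩
  have hk : 0 < k := lt_of_le_of_lt (Nat.zero_le _) (hμk n hn)
  obtain ⟨k', rfl⟩ : ∃ k', k = k' + 1 := ⟨k - 1, by omega⟩
  have e : A n + μ n * a + 2 * μ n * (k' + 1 - 1) + 2 * μ n * (x' + 1) =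
      (A n + μ n * (a + 2 * (x' + 1 - 1))) + (k' + 1) * (2 * μ n) := by
    simp only [Nat.add_sub_cancel]
    ring
  rw [e]
  exact (Nat.dvd_add_left (Dvd.intro _ rfl)).2 hdv

/-- (Job C7w) Version of `greedy` (`C7.lean`; copy its proof) with prescribed parities.
Proof. Use `exists_value k N D hD (fun n => A n + μ n * (a q - 2)) ...`: more precisely the new value
at `q` is `a q + 2 * (x - 1)` with `1 ≤ x ≤ N + 1`; apply `exists_value` with
`A' n = A n + μ n * a q` and `μ' n = 2 * μ n`, `x' = x - 1`; to stay inside the naturals redo the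
pigeonhole for `x ∈ range (N+1)` and the value `a q + 2 x`: two forbidden `x < x'` for the same `n`
give `k ∣ 2 μ n (x' - x)` with `0 < 2 μ n (x' - x) ≤ 2 N μ n < k`.  The induction over `B` is
unchanged; start with `β = a`. -/
theorem greedyw (k N : ℕ) (D : Finset ℕ) (hD : D.card ≤ N) (a q w : ℕ → ℕ)
    (hq : ∀ n ∈ D, (q n).Prime) (hw : ∀ n ∈ D, w n ≠ 0) (hdvd : ∀ n ∈ D, q n ∣ w n)
    (hmax : ∀ n ∈ D, ∀ p, p.Prime → p ∣ w n → p ≤ q n)
    (hsmall : ∀ n ∈ D, (w n).factorization (q n) * (2 * N) < k) :
    ∃ β : ℕ → ℕ, (∀ p, a p ≤ β p ∧ β p ≤ a p + 2 * N) ∧ (∀ p, β p % 2 = a p % 2) ∧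
      (∀ p, (∀ n ∈ D, p ≠ q n) → β p = a p) ∧ ∀ n ∈ D, ¬ k ∣ wt β (w n) := by
  classical
  have key : ∀ B : ℕ, ∃ β : ℕ → ℕ, (∀ p, a p ≤ β p ∧ β p ≤ a p + 2 * N) ∧
      (∀ p, β p % 2 = a p % 2) ∧
      (∀ p, (∀ n ∈ D, p ≠ q n) → β p = a p) ∧ ∀ n ∈ D, q n < B → ¬ k ∣ wt β (w n) := by
    intro B
    induction B with
    | zero =>
      exact ⟨a, fun _ => ⟨le_rfl, Nat.le_add_right _ _⟩, fun _ => rfl, fun _ _ => rfl,
        fun n _ h => absurd h (Nat.not_lt_zero _)⟩
    | succ B ih =>
      obtain ⟨β, hβ1, hβ0, hβ2, hβ3⟩ := ih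
      by_cases hB : ∃ n ∈ D, q n = B
      · obtain ⟨n0, hn0, hqn0⟩ := hB
        have hpos : ∀ n ∈ D.filter (fun n => q n = B), 0 < (w n).factorization B := by
          intro n hn
          rw [mem_filter] at hn
          have hp : B.Prime := hn.2 ▸ hq n hn.1
          have hd : B ∣ w n := by
            have := hdvd n hn.1
            rwa [hn.2] at this
          exact hp.factorization_pos_of_dvd (hw n hn.1) hd
        obtain ⟨x, hx1, hx2, hx0, hx3⟩ := exists_value_w k N (D.filter (fun n => q n = B))
          (le_trans (card_filter_le _ _) hD)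
          (fun n => ∑ p ∈ (w n).primeFactors.erase B, (w n).factorization p * β p)
          (fun n => (w n).factorization B) (a B) hpos
          (by
            intro n hn
            rw [mem_filter] at hn
            have := hsmall n hn.1
            rw [hn.2] at this
            exact this)
        refine ⟨Function.update β B x, ?_, ?_, ?_, ?_⟩
        · intro p
          by_cases hp : p = B
          · rw [hp, Function.update_self]; exact ⟨hx1, hx2⟩
          · rw [Function.update_of_ne hp]; exact hβ1 p
        · intro p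
          by_cases hp : p = B
          · rw [hp, Function.update_self]; exact hx0
          · rw [Function.update_of_ne hp]; exact hβ0 p
        · intro p hp
          have hpB : p ≠ B := by
            intro h
            exact hp n0 hn0 (by rw [h, hqn0])
          rw [Function.update_of_ne hpB]
          exact hβ2 p hp
        · intro n hn hlt
          rcases Nat.lt_succ_iff_lt_or_eq.mp hlt with hlt' | heq
          · have hsame : wt (Function.update β B x) (w n) = wt β (w n) := by
              rw [wt_eq_sum, wt_eq_sum]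
              refine sum_congr rfl ?_
              intro p hp
              have hp1 : p.Prime := Nat.prime_of_mem_primeFactors hp
              have hp2 : p ∣ w n := Nat.dvd_of_mem_primeFactors hp
              have hp3 := hmax n hn p hp1 hp2
              have hpB : p ≠ B := by omega
              rw [Function.update_of_ne hpB]
            rw [hsame]
            exact hβ3 n hn hlt'
          · have hmem : n ∈ D.filter (fun n => q n = B) := mem_filter.mpr ⟨hn, heq⟩
            have hBmem : B ∈ (w n).primeFactors := by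
              rw [Nat.mem_primeFactors]
              refine ⟨heq ▸ hq n hn, ?_, hw n hn⟩
              have := hdvd n hn
              rwa [heq] at this
            have hval : wt (Function.update β B x) (w n) =
                ∑ p ∈ (w n).primeFactors.erase B, (w n).factorization p * β p
                  + (w n).factorization B * x := by
              rw [wt_eq_sum, ← sum_erase_add _ _ hBmem, Function.update_self]
              congr 1
              refine sum_congr rfl ?_
              intro p hp
              rw [Function.update_of_ne (ne_of_mem_erase hp)]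
            rw [hval]
            exact hx3 n hmem
      · refine ⟨β, hβ1, hβ0, hβ2, ?_⟩
        intro n hn hlt
        have hne : q n ≠ B := fun h => hB ⟨n, hn, h⟩
        exact hβ3 n hn (by omega)
  obtain ⟨β, h1, h0, h2, h3⟩ := key (∑ n ∈ D, (q n + 1))
  refine ⟨β, h1, h0, h2, ?_⟩
  intro n hn
  refine h3 n hn ?_
  have : q n + 1 ≤ ∑ n ∈ D, (q n + 1) :=
    single_le_sum (f := fun n => q n + 1) (fun i _ => Nat.zero_le _) hn
  omega

end Pool.Agent.Lib.MP_fed790_nt
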