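import Pool.Agent.Lib.MP_fed790_nt.W.C2w
import Pool.Agent.Lib.MP_fed790_nt.W.C5w
import Pool.Agent.Lib.MP_fed790_nt.W.C7w
import Pool.Agent.Lib.MP_fed790_nt.Stormer
import Pool.Agent.Lib.MP_fed790_nt.C8

/-! Job C8w -/

namespace Pool.Agent.Lib.MP_fed790_nt

open Finset

/-- (Job C8w) Weighted version of `exists_beta` (`C8.lean`; copy its proof), uniform in `a`.
Proof. As for `exists_beta`, everything is chosen uniformly in `a`.  `δ ∈ (0,1)` with
`γ < (1-δ) Γ`; `P ≥ 2` with `2 (γ+1)/log P ≤ δ/2`; `N, k1` from `gapw`; `Q ≥ max P m` with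
`(2N+2)(γ+1)/log Q ≤ δ/2` (so `2 N (γ+1)/log Q < 1`).  For `n` in
`D = {1 ≤ n < exp(γ k) : (1-δ) k ≤ WS a P (n+i) for all i < m}`: `2 ^ OmS P n ≤ n`
(`two_pow_OmS_le`) and `WS a P n ≤ 2 OmS P n`, so `n ≥ 2^{(1-δ)k/2} → ∞`, and Størmer gives a prime
`> Q` dividing `n(n+1)`.  `β` from `greedyw k N D … a …`; `a p ≤ β p ≤ a p + 2N ≤ 2N+2`; `β p = a p`
for `p ≤ Q` and for all `p` larger than `exp(γ k) + m` (all `q n` divide some `n + i`).
If `k ∣ wt β (n+i)` for all `i < m`, `1 ≤ n < exp(γ k)`: for `n = 1` use `wt β 2 = β 2 = a 2 ≤ 2 < k`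
(`k ≥ 3`, `β 2 ≥ 1`); for `n ≥ 2`, `wt β (n+i) ≥ 1` (as `β ≥ a ≥ 1`), hence `≥ k`, and `wtw_le` (with
`2N+2` for `N`) gives `(1-δ) k ≤ WS a P (n+i)`, so `n ∈ D`, contradiction. -/
theorem exists_betaw (m : ℕ) (hm : 2 ≤ m) (γ Γ : ℝ) (hγ : 0 ≤ γ) (hΓ : γ < Γ) :
    ∃ k0 : ℕ, ∀ k ≥ k0, ∀ a : ℕ → ℕ, (∀ p, a p = 1 ∨ a p = 2) → LowSum m a Γ →
      ∃ β : ℕ → ℕ, (∀ p, β p % 2 = a p % 2) ∧ (∃ B : ℕ, ∀ p > B, β p = a p) ∧
        ∀ n : ℕ, 1 ≤ n → (n : ℝ) < Real.exp (γ * k) → ∃ i < m, ¬ k ∣ wt β (n + i) := by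
  classical
  have hΓ0 : 0 < Γ := by linarith
  obtain ⟨δ, hδdef⟩ : ∃ δ : ℝ, δ = (Γ - γ) / (2 * Γ) := ⟨_, rfl⟩
  have hδ0 : 0 < δ := by
    rw [hδdef]
    exact div_pos (by linarith) (by linarith)
  have hδΓ : δ * Γ = (Γ - γ) / 2 := by
    rw [hδdef]
    field_simp
  have hδ1 : δ ≤ 1 / 2 := by
    rw [hδdef, div_le_iff₀ (by linarith)]
    linarith
  have hgap0 : γ < (1 - δ) * Γ := by
    nlinarith
  -- choice of P
  obtain ⟨P, hP2, hPlog⟩ : ∃ P : ℕ, 2 ≤ P ∧ 2 * (γ + 1) ≤ δ / 2 * Real.log P := by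
    refine ⟨⌈Real.exp (2 * (2 * (γ + 1)) / δ)⌉₊ + 2, by omega, ?_⟩
    have h1 : Real.exp (2 * (2 * (γ + 1)) / δ) ≤
        ((⌈Real.exp (2 * (2 * (γ + 1)) / δ)⌉₊ + 2 : ℕ) : ℝ) := by
      push_cast
      linarith [Nat.le_ceil (Real.exp (2 * (2 * (γ + 1)) / δ))]
    have h2 : 2 * (2 * (γ + 1)) / δ ≤
        Real.log ((⌈Real.exp (2 * (2 * (γ + 1)) / δ)⌉₊ + 2 : ℕ) : ℝ) := by
      rw [← Real.log_exp (2 * (2 * (γ + 1)) / δ)]
      exact Real.log_le_log (Real.exp_pos _) (by rwa [Real.log_exp])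
    rw [div_le_iff₀ hδ0] at h2
    linarith
  obtain ⟨N, k1, hgap⟩ := gapw m γ δ Γ hδ0 (by linarith) hγ hgap0 P
  -- choice of Q
  obtain ⟨Q, hQP, hQm, hQlog⟩ : ∃ Q : ℕ, P ≤ Q ∧ m ≤ Q ∧
      (2 * N + 2) * (γ + 1) ≤ δ / 2 * Real.log Q := by
    refine ⟨⌈Real.exp (2 * ((2 * N + 2) * (γ + 1)) / δ)⌉₊ + P + m, by omega, by omega, ?_⟩
    have h1 : Real.exp (2 * ((2 * N + 2) * (γ + 1)) / δ) ≤
        ((⌈Real.exp (2 * ((2 * N + 2) * (γ + 1)) / δ)⌉₊ + P + m : ℕ) : ℝ) := by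
      push_cast
      have h2 := Nat.le_ceil (Real.exp (2 * ((2 * N + 2) * (γ + 1)) / δ))
      have h3 : (0 : ℝ) ≤ P := Nat.cast_nonneg _
      have h4 : (0 : ℝ) ≤ m := Nat.cast_nonneg _
      linarith
    have h2 : 2 * ((2 * N + 2) * (γ + 1)) / δ ≤
        Real.log ((⌈Real.exp (2 * ((2 * N + 2) * (γ + 1)) / δ)⌉₊ + P + m : ℕ) : ℝ) := by
      rw [← Real.log_exp (2 * ((2 * N + 2) * (γ + 1)) / δ)]
      exact Real.log_le_log (Real.exp_pos _) (by rwa [Real.log_exp])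
    rw [div_le_iff₀ hδ0] at h2
    linarith
  have hQ2 : 2 ≤ Q := hP2.trans hQP
  have hlQ : 0 < Real.log Q := Real.log_pos (by exact_mod_cast hQ2)
  have hlP : 0 < Real.log P := Real.log_pos (by exact_mod_cast hP2)
  have hNQ : (2 * N : ℝ) * (γ + 1) < Real.log Q := by
    have h1 : δ / 2 * Real.log Q < Real.log Q := by nlinarith
    nlinarith
  obtain ⟨B, hB⟩ := stormer Q
  have h1δ : 0 < 1 - δ := by linarith
  refine ⟨k1 + 3 + ⌈Real.log (m + 1)⌉₊ + ⌈(2 * B : ℝ) / (1 - δ)⌉₊, fun k hk a ha hlow => ?_⟩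
  have ha1 : ∀ p, 1 ≤ a p := by
    intro p
    rcases ha p with h | h <;> omega
  have ha2 : ∀ p, a p ≤ 2 := by
    intro p
    rcases ha p with h | h <;> omega
  have hk1 : k1 ≤ k := by omega
  have hk3 : 3 ≤ k := by omega
  have hkm : Real.log (m + 1) ≤ k := by
    refine (Nat.le_ceil _).trans ?_
    exact_mod_cast (by omega : ⌈Real.log (m + 1)⌉₊ ≤ k)
  have hkB : (2 * B : ℝ) ≤ (1 - δ) * k := by
    have h1 : (2 * B : ℝ) / (1 - δ) ≤ k := by
      refine (Nat.le_ceil _).trans ?_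
      exact_mod_cast (by omega : ⌈(2 * B : ℝ) / (1 - δ)⌉₊ ≤ k)
    rw [div_le_iff₀ h1δ] at h1
    linarith
  have hk0 : (0 : ℝ) < k := by
    have : 0 < k := by omega
    exact_mod_cast this
  have hck1 : 1 ≤ Real.exp (γ * k) := Real.one_le_exp (by positivity)
  -- the logarithm
  have hlogb : ∀ n : ℕ, 1 ≤ n → (n : ℝ) < Real.exp (γ * k) → ∀ i < m,
      Real.log ((n + i : ℕ) : ℝ) ≤ (γ + 1) * k := by
    intro n hn1 hnc i hi
    have h1 : ((n + i : ℕ) : ℝ) ≤ (m + 1) * Real.exp (γ * k) := by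
      push_cast
      have h2 : (i : ℝ) ≤ m := by exact_mod_cast hi.le
      have h3 : (0 : ℝ) ≤ m := Nat.cast_nonneg _
      nlinarith
    have h2 : (0 : ℝ) < ((n + i : ℕ) : ℝ) := by
      have : 0 < n + i := by omega
      exact_mod_cast this
    have h3 := Real.log_le_log h2 h1
    rw [Real.log_mul (by positivity) (by positivity), Real.log_exp] at h3
    linarith
  let D : Finset ℕ := (range ⌈Real.exp (γ * k)⌉₊).filter fun n =>
    1 ≤ n ∧ (n : ℝ) < Real.exp (γ * k) ∧ ∀ i < m, (1 - δ) * k ≤ (WS a P (n + i) : ℝ)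
  have hDmem : ∀ n, n ∈ D ↔ 1 ≤ n ∧ (n : ℝ) < Real.exp (γ * k) ∧
      ∀ i < m, (1 - δ) * k ≤ (WS a P (n + i) : ℝ) := by
    intro n
    simp only [D, mem_filter, mem_range]
    constructor
    · exact fun h => h.2
    · exact fun h => ⟨Nat.lt_ceil.2 h.2.1, h⟩
  have hDcard : D.card ≤ N := by
    refine hgap k hk1 a ha hlow D fun n hn => ?_
    exact (hDmem n).1 hn
  have hWS : ∀ n, WS a P n ≤ 2 * OmS P n := by
    intro n
    unfold WS OmS
    rw [mul_sum]
    refine sum_le_sum fun p _ => ?_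
    rw [mul_comm]
    exact Nat.mul_le_mul_right _ (ha2 p)
  have hex : ∀ n ∈ D, ∃ q I : ℕ, q.Prime ∧ I < m ∧ q ∣ n + I ∧ Q < q ∧
      ∀ p, p.Prime → p ∣ n + I → p ≤ q := by
    intro n hn
    obtain ⟨hn1, hnc, hnO⟩ := (hDmem n).1 hn
    have hnB : B ≤ n := by
      have h1 := hnO 0 (by omega)
      rw [add_zero] at h1
      have h2 : 2 * B ≤ WS a P n := by exact_mod_cast hkB.trans h1
      have h2' := hWS n
      have h3 := two_pow_OmS_le P n (by omega)
      have h4 : OmS P n < 2 ^ OmS P n := Nat.lt_two_pow_self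
      omega
    obtain ⟨p, hp, hQp, hpd⟩ := hB n hnB
    let S : Finset ℕ := (range m).biUnion fun i => (n + i).primeFactors
    have hSm : ∀ r, r ∈ S ↔ ∃ i < m, r.Prime ∧ r ∣ n + i := by
      intro r
      simp only [S, mem_biUnion, mem_range, Nat.mem_primeFactors]
      constructor
      · rintro ⟨i, hi, h1, h2, _⟩
        exact ⟨i, hi, h1, h2⟩
      · rintro ⟨i, hi, h1, h2⟩
        exact ⟨i, hi, h1, h2, by omega⟩
    have hpS : p ∈ S := by
      rw [hSm]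
      rcases (Nat.Prime.dvd_mul hp).1 hpd with h | h
      · exact ⟨0, by omega, hp, by simpa using h⟩
      · exact ⟨1, by omega, hp, h⟩
    have hne : S.Nonempty := ⟨p, hpS⟩
    obtain ⟨I, hI, hq, hqd⟩ := (hSm _).1 (S.max'_mem hne)
    refine ⟨S.max' hne, I, hq, hI, hqd, lt_of_lt_of_le hQp (S.le_max' p hpS), ?_⟩
    intro r hr hrd
    exact S.le_max' r ((hSm r).2 ⟨I, hI, hr, hrd⟩)
  choose! q I hqI using hex
  obtain ⟨β, hβ1, hβpar, hβ2, hβ3⟩ := greedyw k N D hDcard a q (fun n => n + I n)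
    (fun n hn => (hqI n hn).1)
    (fun n hn => by
      have := ((hDmem n).1 hn).1
      show n + I n ≠ 0
      omega)
    (fun n hn => (hqI n hn).2.2.1)
    (fun n hn p hp hpd => (hqI n hn).2.2.2.2 p hp hpd)
    (by
      intro n hn
      obtain ⟨hn1, hnc, hnO⟩ := (hDmem n).1 hn
      obtain ⟨hq, hIm, hqd, hQq, hmax⟩ := hqI n hn
      show (n + I n).factorization (q n) * (2 * N) < k
      obtain ⟨v, hv⟩ : ∃ v : ℕ, v = (n + I n).factorization (q n) := ⟨_, rfl⟩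
      rw [← hv]
      have hne : n + I n ≠ 0 := by omega
      have h1 : q n ^ v ≤ n + I n := by
        rw [hv]
        exact Nat.le_of_dvd (by omega) (Nat.ordProj_dvd _ _)
      have h2 : (v : ℝ) * Real.log (q n) ≤ (γ + 1) * k := by
        refine le_trans ?_ (hlogb n hn1 hnc (I n) hIm)
        rw [← Real.log_pow]
        refine Real.log_le_log ?_ (by exact_mod_cast h1)
        have : 0 < q n := hq.pos
        positivity
      have h3 : Real.log Q ≤ Real.log (q n) := by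
        refine Real.log_le_log ?_ (by exact_mod_cast hQq.le)
        have : 0 < Q := by omega
        exact_mod_cast this
      have h4 : (v : ℝ) * Real.log Q ≤ (γ + 1) * k :=
        le_trans (mul_le_mul_of_nonneg_left h3 (Nat.cast_nonneg _)) h2
      have h5 : ((v * (2 * N) : ℕ) : ℝ) * Real.log Q < k * Real.log Q := by
        push_cast
        calc (v : ℝ) * (2 * N) * Real.log Q = (2 * N) * (v * Real.log Q) := by ring
          _ ≤ (2 * N) * ((γ + 1) * k) := mul_le_mul_of_nonneg_left h4 (by positivity)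
          _ = ((2 * N) * (γ + 1)) * k := by ring
          _ < Real.log Q * k := mul_lt_mul_of_pos_right hNQ hk0
          _ = k * Real.log Q := by ring
      have h6 : ((v * (2 * N) : ℕ) : ℝ) < k := lt_of_mul_lt_mul_right h5 hlQ.le
      exact_mod_cast h6)
  have hβQ : ∀ p ≤ Q, β p = a p := by
    intro p hp
    refine hβ2 p fun n hn he => ?_
    have := (hqI n hn).2.2.2.1
    omega
  refine ⟨β, hβpar, ⟨D.sup q, fun p hp => ?_⟩, fun n hn1 hnc => ?_⟩
  · refine hβ2 p fun n hn he => ?_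
    have : q n ≤ D.sup q := Finset.le_sup hn
    omega
  by_contra hcon
  push Not at hcon
  rcases Nat.lt_or_ge n 2 with hlt | hge
  · have h1 : n = 1 := by omega
    subst h1
    have h2 := hcon 1 (by omega)
    rw [show 1 + 1 = 2 from rfl, wt_prime β Nat.prime_two, hβQ 2 hQ2] at h2
    have h3 := Nat.le_of_dvd (ha1 2) h2
    have h4 := ha2 2
    omega
  · have hnO : ∀ i < m, (1 - δ) * k ≤ (WS a P (n + i) : ℝ) := by
      intro i hi
      have hpos : 0 < wt β (n + i) := by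
        obtain ⟨p, hp, hpd⟩ := Nat.exists_prime_and_dvd (n := n + i) (by omega)
        rw [wt_eq_sum]
        refine Finset.sum_pos' (fun _ _ => Nat.zero_le _) ⟨p, ?_, ?_⟩
        · exact Nat.mem_primeFactors.2 ⟨hp, hpd, by omega⟩
        · exact Nat.mul_pos (hp.factorization_pos_of_dvd (by omega) hpd)
            (lt_of_lt_of_le (ha1 p) (hβ1 p).1)
      have hkle : k ≤ wt β (n + i) := Nat.le_of_dvd hpos (hcon i hi)
      have hkle' : (k : ℝ) ≤ (wt β (n + i) : ℝ) := by exact_mod_cast hkle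
      have hw := wtw_le a β P Q (2 * N + 2) hP2 hQP ha2 (fun p hp => (hβQ p hp).le)
        (fun p => by
          have h1 := (hβ1 p).2
          have h2 := ha2 p
          omega) (n + i)
        (by omega)
      have hl := hlogb n hn1 hnc i hi
      have e1 : 2 * (Real.log ((n + i : ℕ) : ℝ) / Real.log P) ≤ δ / 2 * k := by
        rw [← mul_div_assoc, div_le_iff₀ hlP]
        calc 2 * Real.log ((n + i : ℕ) : ℝ) ≤ 2 * ((γ + 1) * k) := by linarith
          _ = (2 * (γ + 1)) * k := by ring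
          _ ≤ (δ / 2 * Real.log P) * k := mul_le_mul_of_nonneg_right hPlog hk0.le
          _ = δ / 2 * k * Real.log P := by ring
      have e2 : ((2 * N + 2 : ℕ) : ℝ) * (Real.log ((n + i : ℕ) : ℝ) / Real.log Q) ≤ δ / 2 * k := by
        rw [← mul_div_assoc, div_le_iff₀ hlQ]
        push_cast
        have hl' : Real.log ((n : ℝ) + (i : ℝ)) ≤ (γ + 1) * k := by
          have := hl
          push_cast at this
          exact this
        calc (2 * (N : ℝ) + 2) * Real.log ((n : ℝ) + (i : ℝ)) ≤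
              (2 * (N : ℝ) + 2) * ((γ + 1) * k) :=
              mul_le_mul_of_nonneg_left hl' (by positivity)
          _ = ((2 * N + 2) * (γ + 1)) * k := by ring
          _ ≤ (δ / 2 * Real.log Q) * k := mul_le_mul_of_nonneg_right hQlog hk0.le
          _ = δ / 2 * k * Real.log Q := by ring
      linarith
    have hnD : n ∈ D := (hDmem n).2 ⟨hn1, hnc, hnO⟩
    exact hβ3 n hnD (hcon (I n) (hqI n hnD).2.1)

end Pool.Agent.Lib.MP_fed790_nt
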