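import Pool.Agent.Lib.MP_fed790_nt.Basic

/-!
Definitions for the weighted version (sharp rate for every `k`).
-/

namespace Pool.Agent.Lib.MP_fed790_nt

open Finset

/-- the number of prime factors `≤ P` of `n`, with multiplicity and weights `a p` -/
def WS (a : ℕ → ℕ) (P n : ℕ) : ℕ := ∑ p ∈ PS P, n.factorization p * a p

/-- `Γ` is a lower bound for the sum of `(log p) / a p` over `m` distinct primes -/
def LowSum (m : ℕ) (a : ℕ → ℕ) (Γ : ℝ) : Prop :=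
  ∀ s : ℕ → ℕ, (∀ i < m, (s i).Prime) → (∀ i < m, ∀ j < m, s i = s j → i = j) →
    Γ ≤ ∑ i ∈ range m, Real.log (s i : ℝ) / (a (s i) : ℝ)

/-- `β` is admissible for `k` on the finite set `Ps` of primes: whenever a product of powers of the
primes in `Ps` is a `k`-th power in the `k`-th cyclotomic field, `k` divides its `β`-weight. -/
def Adm (k : ℕ) (Ps : Finset ℕ) (β : ℕ → ℕ) : Prop :=
  ∀ (F : Type) [Field F] [Algebra ℚ F] [IsCyclotomicExtension {k} ℚ F] (c : ℕ → ℕ) (γ : F),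
    γ ^ k = ((∏ p ∈ Ps, p ^ c p : ℕ) : F) → k ∣ ∑ p ∈ Ps, β p * c p

/-- the weight of the prime `p`: `2` if `√p` lies in the `k`-th cyclotomic field, else `1` -/
def aK (k p : ℕ) : ℕ :=
  if (Even k ∧ p ≠ 2 ∧ p ∣ k ∧ (4 ∣ k ∨ p % 4 = 1)) ∨ (p = 2 ∧ 8 ∣ k) then 2 else 1

/-- the exponential rate `b(k)` for pairs -/
noncomputable def base (k : ℕ) : ℝ :=
  if 8 ∣ k then
    (if 3 ∣ k then √6 else if 5 ∣ k then √10 else if 7 ∣ k then √14 else 3 * √2)
  else if 4 ∣ k then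
    (if 3 ∣ k then 2 * √3 else if 5 ∣ k then 2 * √5 else if 7 ∣ k then 2 * √7 else 6)
  else if 10 ∣ k then 2 * √5 else 6

theorem aK_eq (k p : ℕ) : aK k p = 1 ∨ aK k p = 2 := by
  unfold aK; split_ifs <;> simp

theorem aK_odd {k : ℕ} (hk : Odd k) (p : ℕ) : aK k p = 1 := by
  unfold aK
  rw [if_neg]
  rintro (⟨h, -⟩ | ⟨-, h⟩)
  · exact (Nat.not_even_iff_odd.mpr hk) h
  · have h2 : 2 ∣ k := (by norm_num : 2 ∣ 8).trans h
    exact (Nat.not_even_iff_odd.mpr hk) (even_iff_two_dvd.mpr h2)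

theorem aK_of_not_dvd {k p : ℕ} (hp : p ≠ 2) (h : ¬ p ∣ k) : aK k p = 1 := by
  unfold aK
  rw [if_neg]
  rintro (⟨-, -, h1, -⟩ | ⟨h1, -⟩)
  · exact h h1
  · exact hp h1

end Pool.Agent.Lib.MP_fed790_nt
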