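import Pool.Agent.Lib.MP_fed790_nt.K2

/-! Job K2w -/

namespace Pool.Agent.Lib.MP_fed790_nt

/-- roots of unity of the base field are fixed -/
private theorem k2w_fixed_root {k : ℕ} [NeZero k] {F : Type*} [Field F] {E : Type*} [Field E]
    [Algebra F E] {ζ : F} (hζ : IsPrimitiveRoot ζ k) (σ : E ≃ₐ[F] E) {x : E} (hx : x ^ k = 1) :
    σ x = x := by
  have hζ' : IsPrimitiveRoot (algebraMap F E ζ) k :=
    hζ.map_of_injective (algebraMap F E).injective
  obtain ⟨i, -, hi⟩ := hζ'.eq_pow_of_pow_eq_one hx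
  rw [← hi, map_pow, AlgEquiv.commutes]

private theorem k2w_ratio_pow {k : ℕ} [NeZero k] {F : Type*} [Field F] {E : Type*} [Field E]
    [Algebra F E] (σ : E ≃ₐ[F] E) {p : ℕ} {x : E} (hx : x ^ k = (p : E)) (hx0 : x ≠ 0) :
    (σ x / x) ^ k = 1 := by
  rw [div_pow, ← map_pow, hx, map_natCast, div_self]
  rw [← hx]
  exact pow_ne_zero _ hx0

/-- (Job K2w) General version of `exists_sigma` (`K2.lean`; copy its proof).
Proof. As for `exists_sigma` with `g p = ζ'^(β p)`: if `c` kills `H`, then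
`γ = ∏ p ∈ Ps, θ p ^ c p` comes from `γ' ∈ F` with `γ'^k = ∏ p^{c p}`, so `k ∣ ∑ β p * c p` by
`hadm` and `∏ g p ^ c p = ζ'^(∑ β p * c p) = 1`. -/
theorem exists_sigmaw (k : ℕ) [NeZero k]
    {F : Type*} [Field F] [Algebra ℚ F] [IsCyclotomicExtension {k} ℚ F]
    {E : Type*} [Field E] [Algebra F E] [FiniteDimensional F E] [IsGalois F E]
    (ζ : F) (hζ : IsPrimitiveRoot ζ k) (Ps : Finset ℕ) (hPs : ∀ p ∈ Ps, p.Prime)
    (θ : ℕ → E) (hθ : ∀ p ∈ Ps, θ p ^ k = (p : E)) (β : ℕ → ℕ)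
    (hadm : ∀ (c : ℕ → ℕ) (γ : F), γ ^ k = ((∏ p ∈ Ps, p ^ c p : ℕ) : F) →
      k ∣ ∑ p ∈ Ps, β p * c p) :
    ∃ σ : E ≃ₐ[F] E, ∀ p ∈ Ps, σ (θ p) = algebraMap F E (ζ ^ β p) * θ p := by
  classical
  have hk : 0 < k := Nat.pos_of_ne_zero (NeZero.ne k)
  have hF0 : CharZero F := charZero_of_injective_algebraMap (algebraMap ℚ F).injective
  have hE0 : CharZero E := charZero_of_injective_algebraMap (algebraMap F E).injective
  have hζ' : IsPrimitiveRoot (algebraMap F E ζ) k :=
    hζ.map_of_injective (algebraMap F E).injective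
  have hθ0 : ∀ p : Ps, θ p ≠ 0 := by
    intro p h0
    have h1 := hθ p p.2
    rw [h0, zero_pow hk.ne'] at h1
    exact (hPs p p.2).ne_zero (by exact_mod_cast h1.symm)
  let ψ : (E ≃ₐ[F] E) →* (Ps → rootsOfUnity k E) :=
    { toFun := fun σ p =>
        rootsOfUnity.mkOfPowEq (σ (θ p) / θ p) (k2w_ratio_pow σ (hθ p p.2) (hθ0 p))
      map_one' := by
        funext p
        apply Subtype.ext
        apply Units.ext
        rw [rootsOfUnity.val_mkOfPowEq_coe]
        simp [hθ0 p]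
      map_mul' := by
        intro σ τ
        funext p
        apply Subtype.ext
        apply Units.ext
        rw [Pi.mul_apply, Subgroup.coe_mul, Units.val_mul, rootsOfUnity.val_mkOfPowEq_coe,
          rootsOfUnity.val_mkOfPowEq_coe, rootsOfUnity.val_mkOfPowEq_coe]
        have h1 : σ (τ (θ p) / θ p) = τ (θ p) / θ p :=
          k2w_fixed_root hζ σ (k2w_ratio_pow τ (hθ p p.2) (hθ0 p))
        rw [map_div₀] at h1
        have h2 : σ (θ p) ≠ 0 := by
          rw [Ne, map_eq_zero]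
          exact hθ0 p
        have h3 : σ (τ (θ p)) = τ (θ p) / θ p * σ (θ p) := by
          rw [← h1, div_mul_cancel₀ _ h2]
        rw [AlgEquiv.mul_apply, h3]
        ring }
  have hψ : ∀ (σ : E ≃ₐ[F] E) (p : Ps), (((ψ σ p : rootsOfUnity k E) : Eˣ) : E) = σ (θ p) / θ p := by
    intro σ p
    exact rootsOfUnity.val_mkOfPowEq_coe _ _
  let g : Ps → rootsOfUnity k E := fun p => hζ'.toRootsOfUnity ^ β p
  have hg : ∀ p : Ps, (((g p : rootsOfUnity k E) : Eˣ) : E) = algebraMap F E ζ ^ β p := by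
    intro p
    simp [g]
  have hmem : g ∈ ψ.range := by
    refine mem_of_duality hζ' ψ.range g ?_
    intro c hc
    have hdvd : k ∣ ∑ p : Ps, β p * c p := by
      set c' : ℕ → ℕ := fun p => if hp : p ∈ Ps then c ⟨p, hp⟩ else 0 with hc'
      have hc'p : ∀ p : Ps, c' p = c p := by
        intro p
        rw [hc']
        simp only [p.2, dif_pos]
      set γ : E := ∏ p : Ps, θ p ^ c p with hγ
      have hfix : ∀ σ : E ≃ₐ[F] E, σ γ = γ := by
        intro σ
        have h1 : ∏ p : Ps, ψ σ p ^ c p = 1 := hc _ ⟨σ, rfl⟩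
        have h2 : ∏ p : Ps, (σ (θ p) / θ p) ^ c p = 1 := by
          have h3 := congrArg (fun u : rootsOfUnity k E => ((u : Eˣ) : E)) h1
          simp only [Subgroup.val_finsetProd, Units.coe_prod, SubmonoidClass.coe_pow,
            Units.val_pow_eq_pow_val, OneMemClass.coe_one, Units.val_one, hψ] at h3
          exact h3
        calc σ γ = ∏ p : Ps, (σ (θ p)) ^ c p := by
              rw [hγ, map_prod]
              simp only [map_pow]
          _ = ∏ p : Ps, ((σ (θ p) / θ p) ^ c p * θ p ^ c p) := by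
              refine Finset.prod_congr rfl fun p _ => ?_
              rw [← mul_pow, div_mul_cancel₀ _ (hθ0 p)]
          _ = γ := by
              rw [Finset.prod_mul_distrib, h2, one_mul]
      obtain ⟨γ', hγ'⟩ := (IsGalois.mem_range_algebraMap_iff_fixed γ).2 hfix
      have hpow : γ' ^ k = ((∏ p ∈ Ps, p ^ c' p : ℕ) : F) := by
        apply (algebraMap F E).injective
        have h7 : (∏ p ∈ Ps, p ^ c' p : ℕ) = ∏ p : Ps, (p : ℕ) ^ c' p :=
          (Finset.prod_coe_sort Ps fun p => p ^ c' p).symm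
        rw [map_pow, hγ', map_natCast, hγ, ← Finset.prod_pow, h7, Nat.cast_prod]
        refine Finset.prod_congr rfl fun p _ => ?_
        rw [hc'p, Nat.cast_pow, ← hθ p p.2]
        ring
      have h8 := hadm c' γ' hpow
      have h9 : ∑ p ∈ Ps, β p * c' p = ∑ p : Ps, β p * c p := by
        rw [← Finset.sum_coe_sort Ps fun p => β p * c' p]
        exact Finset.sum_congr rfl fun p _ => by rw [hc'p]
      rwa [h9] at h8
    have h10 : ∏ p : Ps, (algebraMap F E ζ ^ β p) ^ c p = 1 := by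
      have h11 : ∀ p ∈ (Finset.univ : Finset Ps),
          (algebraMap F E ζ ^ β p) ^ c p = algebraMap F E ζ ^ (β p * c p) := fun p _ => by
        rw [← pow_mul]
      rw [Finset.prod_congr rfl h11, Finset.prod_pow_eq_pow_sum]
      obtain ⟨r, hr⟩ := hdvd
      rw [hr, pow_mul, hζ'.pow_eq_one, one_pow]
    apply Subtype.ext
    apply Units.ext
    rw [Subgroup.val_finsetProd, Units.coe_prod]
    simp only [SubmonoidClass.coe_pow, Units.val_pow_eq_pow_val, hg]
    rw [h10]
    simp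
  obtain ⟨σ, hσ⟩ := hmem
  refine ⟨σ, fun p hp => ?_⟩
  have h1 := hψ σ ⟨p, hp⟩
  rw [hσ, hg] at h1
  have h2 : θ p ≠ 0 := hθ0 ⟨p, hp⟩
  rw [map_pow, h1]
  field_simp

end Pool.Agent.Lib.MP_fed790_nt
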