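import Pool.Agent.Lib.MP_fed790_nt.K3
import Pool.Agent.Lib.MP_fed790_nt.W.K2w
import Pool.Agent.Lib.MP_fed790_nt.W.Defs

/-! Job K3w -/

namespace Pool.Agent.Lib.MP_fed790_nt

open NumberField

/-- (Job K3w) Version of `exists_field_of_sigma` (`K3.lean`; copy its proof with `e = 1` and with the
prime `q0` in place of `2`).
Proof. `M` = fixed field of `σ`, `w = θ q0`, `w^k = q0`, `σ w = ζ w`.  If `c ∈ M`, `q` prime,
`q ∣ k`, `c^q = q0 = (w^{k/q})^q`, then `c = ω w^{k/q}`, `ω^q = 1`, `σ ω = ω`, and applying `σ`: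
`ζ^{k/q} = 1`, contradiction.  For `p ∈ Ps`, `y = θ p * w^{(k-1) β p}` is fixed by `σ` and
`y^k = p * q0^{(k-1) β p}`; it is integral. -/
theorem exists_field_of_sigmaw (k : ℕ) (hk : 2 ≤ k)
    {F : Type} [Field F] [NumberField F] {E : Type} [Field E] [Algebra F E] [FiniteDimensional F E]
    (ζ : F) (hζ : IsPrimitiveRoot ζ k) (Ps : Finset ℕ) (q0 : ℕ) (hq0 : q0.Prime) (h2 : q0 ∈ Ps)
    (θ : ℕ → E) (hθ : ∀ p ∈ Ps, θ p ^ k = (p : E)) (β : ℕ → ℕ) (hβ : β q0 = 1)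
    (σ : E ≃ₐ[F] E) (hσ : ∀ p ∈ Ps, σ (θ p) = algebraMap F E (ζ ^ β p) * θ p) :
    ∃ (M : Type) (_ : Field M) (_ : NumberField M) (ζ : 𝓞 M), IsPrimitiveRoot ζ k ∧
      (∀ q : ℕ, q.Prime → q ∣ k → ∀ c : M, c ^ q ≠ (q0 : M)) ∧
      ∀ p ∈ Ps, ∃ y : 𝓞 M, y ^ k = (p : 𝓞 M) * (q0 : 𝓞 M) ^ ((k - 1) * β p) := by
  classical
  have hk0 : k ≠ 0 := by omega
  have : NeZero k := ⟨hk0⟩
  have hcharF : CharZero F := inferInstance
  have hcharE : CharZero E := charZero_of_injective_algebraMap (algebraMap F E).injective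
  set M : IntermediateField F E := IntermediateField.fixedField (Subgroup.zpowers σ) with hM
  have hmem : ∀ z : E, σ z = z → z ∈ M := by
    intro z hz
    rw [hM, IntermediateField.mem_fixedField_iff]
    intro τ hτ
    have h1 : Subgroup.zpowers σ ≤ MulAction.stabilizer (E ≃ₐ[F] E) z := by
      rw [Subgroup.zpowers_le]
      exact hz
    exact h1 hτ
  have hfix : ∀ z ∈ M, σ z = z := by
    intro z hz
    rw [hM, IntermediateField.mem_fixedField_iff] at hz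
    exact hz σ (Subgroup.mem_zpowers σ)
  have hNF : NumberField M := NumberField.of_module_finite F M
  have hζM : IsPrimitiveRoot (algebraMap F M ζ) k := hζ.map_of_injective (algebraMap F M).injective
  have hζE : IsPrimitiveRoot (algebraMap F E ζ) k := hζ.map_of_injective (algebraMap F E).injective
  obtain ⟨w, hw⟩ : ∃ w, w = θ q0 := ⟨_, rfl⟩
  obtain ⟨z, hz⟩ : ∃ z, z = algebraMap F E ζ := ⟨_, rfl⟩
  rw [← hz] at hζE
  have hzk : z ^ k = 1 := hζE.pow_eq_one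
  have hwk : w ^ k = (q0 : E) := by rw [hw, hθ q0 h2]
  have hσw : σ w = z * w := by
    rw [hw, hσ q0 h2, hβ, pow_one, hz]
  have hσz : σ z = z := by rw [hz]; exact σ.commutes ζ
  have hw0 : w ≠ 0 := by
    rintro rfl
    rw [zero_pow hk0] at hwk
    exact Nat.cast_ne_zero.2 hq0.ne_zero hwk.symm
  have hinjM : Function.Injective (algebraMap (𝓞 M) M) := RingOfIntegers.coe_injective
  refine ⟨M, inferInstance, hNF, hζM.toInteger, hζM.toInteger_isPrimitiveRoot, ?_, ?_⟩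
  · intro q hq hqk c hc
    have hc2 : (c : E) ^ q = w ^ k := by
      have := congrArg (Subtype.val) hc
      rw [hwk]
      exact this
    obtain ⟨r, hr⟩ := hqk
    have hr0 : 0 < r := by
      rcases Nat.eq_zero_or_pos r with h | h
      · rw [h, mul_zero] at hr
        omega
      · exact h
    have hσc : σ (c : E) = c := hfix _ c.2
    have hwr : w ^ r ≠ 0 := pow_ne_zero _ hw0
    obtain ⟨ω, hω⟩ : ∃ ω, ω = (c : E) / w ^ r := ⟨_, rfl⟩
    have hcω : (c : E) = ω * w ^ r := by rw [hω]; field_simp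
    have hωq : ω ^ q = 1 := by
      have h1 : w ^ (q * r) ≠ 0 := pow_ne_zero _ hw0
      rw [hω, div_pow, hc2, hr, ← pow_mul, mul_comm r q]
      exact div_self h1
    have hωk : ω ^ k = 1 := by
      rw [hr, pow_mul, hωq, one_pow]
    obtain ⟨i, -, hi⟩ := hζE.eq_pow_of_pow_eq_one hωk
    have hσω : σ ω = ω := by rw [← hi, map_pow, hσz]
    have h2 : ω * w ^ r = ω * (z ^ r * w ^ r) := by
      have h3 := hσc
      rw [hcω, map_mul, hσω, map_pow, hσw, mul_pow] at h3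
      exact h3.symm
    have hω0 : ω ≠ 0 := by
      rintro rfl
      rw [zero_pow hq.ne_zero] at hωq
      exact zero_ne_one hωq
    have h4 : z ^ r = 1 := by
      have h5 := mul_left_cancel₀ hω0 h2
      have h6 : (1 : E) * w ^ r = z ^ r * w ^ r := by rw [one_mul]; exact h5
      exact (mul_right_cancel₀ hwr h6).symm
    have h7 : k ∣ r := hζE.dvd_of_pow_eq_one _ h4
    have h8 : k ≤ r := Nat.le_of_dvd hr0 h7
    have h9 : r < k := by
      rw [hr]
      have := hq.two_le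
      nlinarith
    omega
  · intro p hp
    have hymem : θ p * w ^ ((k - 1) * β p) ∈ M := by
      apply hmem
      rw [map_mul, map_pow, hσw, hσ p hp, map_pow, ← hz, mul_pow]
      have h1 : z ^ (β p) * θ p * (z ^ ((k - 1) * β p) * w ^ ((k - 1) * β p))
          = z ^ (β p + (k - 1) * β p) * (θ p * w ^ ((k - 1) * β p)) := by
        rw [pow_add]; ring
      rw [h1]
      have h2 : β p + (k - 1) * β p = k * β p := by
        obtain ⟨j, rfl⟩ : ∃ j, k = j + 1 := ⟨k - 1, by omega⟩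
        simp only [Nat.add_sub_cancel]
        ring
      rw [h2, pow_mul, hzk, one_pow, one_mul]
    obtain ⟨yM, hyM⟩ : ∃ yM : M, yM = ⟨θ p * w ^ ((k - 1) * β p), hymem⟩ := ⟨_, rfl⟩
    have hyMc : (yM : E) = θ p * w ^ ((k - 1) * β p) := by rw [hyM]
    have hyk : yM ^ k = (p : M) * (q0 : M) ^ ((k - 1) * β p) := by
      apply Subtype.ext
      have h1 : ((yM ^ k : M) : E) = (yM : E) ^ k := rfl
      have h3 : (((p : M) * (q0 : M) ^ ((k - 1) * β p) : M) : E) =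
          (p : E) * (q0 : E) ^ ((k - 1) * β p) := by
        push_cast
        rfl
      rw [h1, h3, hyMc, mul_pow, hθ p hp, ← pow_mul, mul_comm ((k - 1) * β p) k, pow_mul, hwk]
    have hyint : IsIntegral ℤ yM := by
      apply IsIntegral.of_pow (Nat.pos_of_ne_zero hk0)
      rw [hyk]
      have h1 : (p : M) * (q0 : M) ^ ((k - 1) * β p) =
          algebraMap ℤ M ((p : ℤ) * (q0 : ℤ) ^ ((k - 1) * β p)) := by
        simp
      rw [h1]
      exact isIntegral_algebraMap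
    obtain ⟨Y, hY⟩ : ∃ Y : 𝓞 M, algebraMap (𝓞 M) M Y = yM := ⟨⟨yM, hyint⟩, rfl⟩
    refine ⟨Y, ?_⟩
    apply hinjM
    rw [map_pow, hY, hyk, map_mul, map_pow, map_natCast, map_natCast]

theorem exists_field_auxw (k : ℕ) (hk : 2 ≤ k)
    (F : Type) [Field F] [Algebra ℚ F] [IsCyclotomicExtension {k} ℚ F]
    (Ps : Finset ℕ) (hPs : ∀ p ∈ Ps, p.Prime) (q0 : ℕ) (h2 : q0 ∈ Ps) (β : ℕ → ℕ) (hβ : β q0 = 1)
    (hadm : Adm k Ps β) :
    ∃ (M : Type) (_ : Field M) (_ : NumberField M) (ζ : 𝓞 M), IsPrimitiveRoot ζ k ∧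
      (∀ q : ℕ, q.Prime → q ∣ k → ∀ c : M, c ^ q ≠ (q0 : M)) ∧
      ∀ p ∈ Ps, ∃ y : 𝓞 M, y ^ k = (p : 𝓞 M) * (q0 : 𝓞 M) ^ ((k - 1) * β p) := by
  have hk0 : NeZero k := ⟨by omega⟩
  have hchar : CharZero F := charZero_of_injective_algebraMap (algebraMap ℚ F).injective
  obtain ⟨E, iE, iA, hfin, hgal, θ, hθ⟩ := exists_galois F k (by omega) Ps
  have hζ := IsCyclotomicExtension.zeta_spec k ℚ F
  obtain ⟨σ, hσ⟩ := exists_sigmaw k (IsCyclotomicExtension.zeta k ℚ F) hζ Ps hPs θ hθ β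
    (fun c γ h => hadm F c γ h)
  have hNF : NumberField F := IsCyclotomicExtension.numberField {k} ℚ F
  exact exists_field_of_sigmaw k hk _ hζ Ps q0 (hPs q0 h2) h2 θ hθ β hβ σ hσ

/-- the number field `M` -/
theorem exists_fieldw (k : ℕ) (hk : 2 ≤ k)
    (Ps : Finset ℕ) (hPs : ∀ p ∈ Ps, p.Prime) (q0 : ℕ) (h2 : q0 ∈ Ps) (β : ℕ → ℕ) (hβ : β q0 = 1)
    (hadm : Adm k Ps β) :
    ∃ (M : Type) (_ : Field M) (_ : NumberField M) (ζ : 𝓞 M), IsPrimitiveRoot ζ k ∧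
      (∀ q : ℕ, q.Prime → q ∣ k → ∀ c : M, c ^ q ≠ (q0 : M)) ∧
      ∀ p ∈ Ps, ∃ y : 𝓞 M, y ^ k = (p : 𝓞 M) * (q0 : 𝓞 M) ^ ((k - 1) * β p) := by
  have hk0 : NeZero k := ⟨by omega⟩
  have hk1 : NeZero ((k : ℕ) : ℚ) := ⟨by exact_mod_cast (by omega : k ≠ 0)⟩
  exact @exists_field_auxw k hk (CyclotomicField k ℚ) _ (CyclotomicField.algebra k ℚ)
    (CyclotomicField.isCyclotomicExtension k ℚ) Ps hPs q0 h2 β hβ hadm

end Pool.Agent.Lib.MP_fed790_nt
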