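import Pool.Agent.Lib.MP_fed790_nt.W.K3w
import Pool.Agent.Lib.MP_fed790_nt.K5

/-! Job K5w -/

namespace Pool.Agent.Lib.MP_fed790_nt

open NumberField Ideal

private theorem k5w_pow_eq {R : Type*} [CommRing R] (k : ℕ) (Ps : Finset ℕ) (q0 : ℕ) (β : ℕ → ℕ)
    (h : ∀ p ∈ Ps, ∃ y : R, y ^ k = (p : R) * (q0 : R) ^ ((k - 1) * β p)) (n : ℕ) (hn : n ≠ 0)
    (hnPs : ∀ p, p.Prime → p ∣ n → p ∈ Ps) :
    ∃ y : R, y ^ k = (n : R) * (q0 : R) ^ ((k - 1) * wt β n) := by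
  induction n using Nat.strong_induction_on with
  | _ n ih =>
    rcases Nat.lt_or_ge 1 n with h1 | h1
    · have hp : n.minFac.Prime := Nat.minFac_prime (by omega)
      obtain ⟨c, hc⟩ := Nat.minFac_dvd n
      have hc0 : c ≠ 0 := by
        rintro rfl
        rw [mul_zero] at hc
        exact hn hc
      have hp2 := hp.two_le
      have hcn : c < n := by
        have h3 : n = n.minFac * c := hc
        have h4 : 2 * c ≤ n.minFac * c := Nat.mul_le_mul_right c hp2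
        omega
      obtain ⟨y, hy⟩ := ih c hcn hc0 fun q hq hqc => hnPs q hq (hqc.trans ⟨n.minFac, by rw [mul_comm]; exact hc⟩)
      obtain ⟨x, hx⟩ := h n.minFac (hnPs _ hp (Nat.minFac_dvd n))
      refine ⟨x * y, ?_⟩
      have hw : wt β n = β n.minFac + wt β c := by
        conv_lhs => rw [hc]
        rw [wt_mul β hp.ne_zero hc0, wt_prime β hp]
      have hcast : (n : R) = (n.minFac : R) * (c : R) := by
        conv_lhs => rw [hc]
        push_cast
        rfl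
      rw [mul_pow, hx, hy, hw, hcast, Nat.mul_add, pow_add]
      ring
    · have h2 : n = 1 := by omega
      subst h2
      exact ⟨1, by simp [wt_one]⟩

private theorem k5w_residue {κ : Type*} [Field κ] [Finite κ] {k : ℕ} (hk : 2 ≤ k)
    {ζ x : κ} (hζ : IsPrimitiveRoot ζ k)
    (h2 : x ≠ 0) (hxq : ∀ q : ℕ, q.Prime → q ∣ k → ∀ t : κ, t ^ q ≠ x) (b : ℕ)
    (y a n : κ) (hy : y ^ k = n * x ^ ((k - 1) * b)) (ha : a ^ k = n) (hn : n ≠ 0) :
    k ∣ b := by
  have hk0 : k ≠ 0 := by omega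
  have hζ0 : ζ ≠ 0 := hζ.ne_zero hk0
  have hζ' : IsPrimitiveRoot (Units.mk0 ζ hζ0) k := by
    rw [← IsPrimitiveRoot.coe_units_iff]
    exact hζ
  have hkC : k ∣ Nat.card κˣ := by
    have h1 := orderOf_dvd_natCard (Units.mk0 ζ hζ0)
    rwa [← hζ'.eq_orderOf] at h1
  have hy0 : y ≠ 0 := by
    rintro rfl
    rw [zero_pow hk0] at hy
    exact mul_ne_zero hn (pow_ne_zero _ h2) hy.symm
  have ha0 : a ≠ 0 := by
    rintro rfl
    rw [zero_pow hk0] at ha
    exact hn ha.symm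
  have hz0 : a * x ^ b / y ≠ 0 := div_ne_zero (mul_ne_zero ha0 (pow_ne_zero _ h2)) hy0
  have hzk : (a * x ^ b / y) ^ k = x ^ b := by
    rw [div_pow, mul_pow, ha, hy, ← pow_mul]
    have h3 : b * k = (k - 1) * b + b := by
      obtain ⟨m, rfl⟩ : ∃ m, k = m + 1 := ⟨k - 1, by omega⟩
      rw [Nat.add_sub_cancel]
      ring
    rw [h3, pow_add]
    have h4 : x ^ ((k - 1) * b) ≠ 0 := pow_ne_zero _ h2
    field_simp
  have h := dvd_of_pow_eq (C := κˣ) (e := 1) (by omega) (one_dvd k) hkC (Units.mk0 x h2) (by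
    intro q hq hqk t ht
    rw [Nat.div_one] at hqk
    apply hxq q hq hqk (t : κ)
    have h5 := congrArg (fun w : κˣ => (w : κ)) ht
    simpa using h5) b (Units.mk0 (a * x ^ b / y) hz0) (by
    apply Units.ext
    rw [Units.val_pow_eq_pow_val, Units.val_pow_eq_pow_val, Units.val_mk0, Units.val_mk0, hzk,
      one_mul])
  rwa [Nat.div_one] at h

private theorem k5w_finite {M : Type} [Field M] [NumberField M] (z : 𝓞 M) (hz : z ≠ 0) :
    {P : Ideal (𝓞 M) | z ∈ P}.Finite := by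
  have h1 : Ideal.span {z} ≠ 0 := by
    rw [Ne, Ideal.zero_eq_bot, Ideal.span_singleton_eq_bot]
    exact hz
  have h2 : Fintype {x : Ideal (𝓞 M) // x ∣ Ideal.span {z}} :=
    UniqueFactorizationMonoid.fintypeSubtypeDvd _ h1
  have h4 : Finite {x : Ideal (𝓞 M) // x ∣ Ideal.span {z}} := @Finite.of_fintype _ h2
  have h3 : {P : Ideal (𝓞 M) | P ∣ Ideal.span {z}}.Finite := Set.finite_coe_iff.1 h4
  refine h3.subset fun P hP => ?_
  exact Ideal.dvd_iff_le.2 ((Ideal.span_singleton_le_iff_mem _).2 hP)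

private theorem k5w_mem {M : Type} [Field M] [NumberField M] {P : Ideal (𝓞 M)} (hP : P ≠ ⊤)
    {l : ℕ} (hl : l.Prime) (hlP : (l : 𝓞 M) ∈ P) (n : ℕ) : (n : 𝓞 M) ∈ P ↔ l ∣ n := by
  constructor
  · intro hn
    by_contra hdvd
    have hc : Nat.Coprime l n := (Nat.Prime.coprime_iff_not_dvd hl).2 hdvd
    obtain ⟨a, b, hab⟩ := Nat.isCoprime_iff_coprime.2 hc
    apply hP
    rw [Ideal.eq_top_iff_one]
    have h1 : (1 : 𝓞 M) = (a : 𝓞 M) * (l : 𝓞 M) + (b : 𝓞 M) * (n : 𝓞 M) := by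
      have := congrArg (fun t : ℤ => (t : 𝓞 M)) hab
      push_cast at this
      exact this.symm
    rw [h1]
    exact P.add_mem (P.mul_mem_left _ hlP) (P.mul_mem_left _ hn)
  · rintro ⟨c, rfl⟩
    push_cast
    exact P.mul_mem_right _ hlP

/-- (Job K5w) General version of `exists_prime_char` (`K5.lean`, `K5a.lean`, `K5b.lean`; copy the
proofs, with `e = 1`, the prime `q0` in place of `2` and `x = q0`).
Proof. First the analogues of `exists_pow_eq` (`y^k = n * q0^((k-1) * wt β n)`) and of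
`dvd_of_residue` (`κ` finite field with a primitive `k`-th root of unity, `q0 ≠ 0` no `q`-th power in
`κ` for the primes `q ∣ k`, `y^k = n q0^{(k-1) b}`, `n = a^k ≠ 0` imply `k ∣ b`; `dvd_of_pow_eq` with
`e = 1`), then the proof of `exists_prime_char` with `exists_fieldw` (`B` = primes containing
`q0 * k * B₀!`). -/
theorem exists_prime_charw (k : ℕ) (hk : 2 ≤ k) (Ps : Finset ℕ) (hPs : ∀ p ∈ Ps, p.Prime) (q0 : ℕ)
    (h2 : q0 ∈ Ps) (β : ℕ → ℕ) (hβ : β q0 = 1) (hadm : Adm k Ps β) (B₀ : ℕ) :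
    ∃ ℓ : ℕ, ℓ.Prime ∧ B₀ < ℓ ∧ ∀ n : ℕ, n ≠ 0 → (∀ p, p.Prime → p ∣ n → p ∈ Ps) →
      ¬ ℓ ∣ n → (∃ a : ℕ, a ^ k ≡ n [MOD ℓ]) → k ∣ wt β n := by
  obtain ⟨M, iF, iN, ζ, hζ, hxM, hy⟩ := exists_fieldw k hk Ps hPs q0 h2 β hβ hadm
  have hk0 : k ≠ 0 := by omega
  have hq0 : q0.Prime := hPs q0 h2
  have hq00 : q0 ≠ 0 := hq0.ne_zero
  set z : 𝓞 M := ((q0 * k * B₀.factorial : ℕ) : 𝓞 M) with hz
  have hz0 : z ≠ 0 := by
    rw [hz]
    exact Nat.cast_ne_zero.2 (by positivity)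
  have hfin := k5w_finite z hz0
  obtain ⟨P, hPp, hPn, hPB, hPq⟩ := exists_prime_simultaneous k.primeFactors
    (fun r hr => (Nat.mem_primeFactors.1 hr).1) (q0 : 𝓞 M)
    (by
      intro r hr
      obtain ⟨_, hr2, _⟩ := Nat.mem_primeFactors.1 hr
      obtain ⟨m, hm⟩ := hr2
      refine ⟨ζ ^ m, hζ.pow (by omega) ?_⟩
      rw [hm, mul_comm])
    (by
      intro r hr c
      obtain ⟨hr1, hr2, _⟩ := Nat.mem_primeFactors.1 hr
      have h3 : ((q0 : 𝓞 M) : M) = (q0 : M) := by simp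
      rw [h3]
      exact hxM r hr1 hr2 c)
    hfin.toFinset
  have hzP : z ∉ P := by
    intro h
    apply hPB
    rw [Set.Finite.mem_toFinset]
    exact h
  set l := absNorm P with hl
  have hPrime : P.IsPrime := Ideal.isPrime_of_prime hPp
  have hPtop : P ≠ ⊤ := hPrime.ne_top
  have hPbot : P ≠ ⊥ := hPp.ne_zero
  have hlP : (l : 𝓞 M) ∈ P := Ideal.absNorm_mem P
  have hmem := k5w_mem hPtop hPn hlP
  have hl2 : ¬ l ∣ q0 * k * B₀.factorial := fun h => hzP ((hmem _).2 h)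
  refine ⟨l, hPn, ?_, ?_⟩
  · by_contra hcon
    push Not at hcon
    exact hl2 (Dvd.dvd.mul_left (Nat.dvd_factorial hPn.pos hcon) _)
  · intro n hn hnPs hln hres
    obtain ⟨a, ha⟩ := hres
    obtain ⟨y, hyk⟩ := k5w_pow_eq k Ps q0 β hy n hn hnPs
    have hmax : P.IsMaximal := hPrime.isMaximal hPbot
    let _ : Field (𝓞 M ⧸ P) := Ideal.Quotient.field P
    have hfinκ : Finite (𝓞 M ⧸ P) := (Ideal.absNorm_ne_zero_iff P).1 hPn.ne_zero
    have hk0' : NeZero k := ⟨hk0⟩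
    have hcop : (absNorm P).Coprime k := by
      rw [← hl, Nat.Prime.coprime_iff_not_dvd hPn]
      intro h
      exact hl2 ((h.mul_left q0).mul_right _)
    have hζκ : IsPrimitiveRoot (Ideal.Quotient.mk P ζ) k :=
      hζ.idealQuotient_mk (by rw [← hl]; exact hPn.ne_one) hcop
    have h2κ : Ideal.Quotient.mk P (q0 : 𝓞 M) ≠ 0 := by
      intro h
      rw [Ideal.Quotient.eq_zero_iff_mem, hmem] at h
      exact hl2 ((h.mul_right k).mul_right _)
    have hnκ : ((n : ℕ) : 𝓞 M ⧸ P) ≠ 0 := by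
      intro h
      have h3 : Ideal.Quotient.mk P ((n : ℕ) : 𝓞 M) = 0 := by
        rw [map_natCast]
        exact h
      rw [Ideal.Quotient.eq_zero_iff_mem, hmem] at h3
      exact hln h3
    apply k5w_residue hk hζκ (x := Ideal.Quotient.mk P (q0 : 𝓞 M)) h2κ _ (wt β n)
      (Ideal.Quotient.mk P y) (a : 𝓞 M ⧸ P) (n : 𝓞 M ⧸ P) _ _ hnκ
    · intro q hq hqk t ht
      obtain ⟨t', rfl⟩ := Ideal.Quotient.mk_surjective t
      rw [← map_pow, Ideal.Quotient.eq] at ht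
      exact hPq q (Nat.mem_primeFactors.2 ⟨hq, hqk, hk0⟩) t' ht
    · rw [← map_pow, hyk, map_mul, map_pow, map_natCast]
    · have h3 : Ideal.Quotient.mk P ((a : 𝓞 M) ^ k) = Ideal.Quotient.mk P (n : 𝓞 M) := by
        rw [Ideal.Quotient.eq]
        obtain ⟨c, hc⟩ := (Nat.modEq_iff_dvd.1 ha.symm)
        have h4 : (a : 𝓞 M) ^ k - (n : 𝓞 M) = (l : 𝓞 M) * (c : 𝓞 M) := by
          have := congrArg (fun t : ℤ => (t : 𝓞 M)) hc
          push_cast at this
          exact this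
        rw [h4]
        exact P.mul_mem_right _ hlP
      rw [map_pow, map_natCast, map_natCast] at h3
      exact h3

end Pool.Agent.Lib.MP_fed790_nt
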