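import Pool.Agent.Lib.MP_fed790_nt.W.Defs
import Pool.Agent.Lib.MP_fed790_nt.K1
import Pool.Agent.Lib.MP_fed790_nt.S1

/-! Job S3 -/

namespace Pool.Agent.Lib.MP_fed790_nt

open Finset

/-- (Job S3a) For odd `k` everything is admissible.
Proof. `two_mul_dvd` gives `k ∣ 2 * c p`, hence `k ∣ c p` for all `p ∈ Ps`. -/
theorem adm_of_odd {k : ℕ} (hk : Odd k) (Ps : Finset ℕ) (hPs : ∀ p ∈ Ps, p.Prime) (β : ℕ → ℕ) :
    Adm k Ps β := by
  intro F _ _ _ c γ hγ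
  have : NeZero k := ⟨by rintro rfl; simp at hk⟩
  have h1 := two_mul_dvd k F Ps hPs c γ hγ
  refine Finset.dvd_sum fun p hp => ?_
  have h2 : Nat.Coprime k 2 := Nat.Coprime.symm (Nat.coprime_two_left.mpr hk)
  exact Dvd.dvd.mul_left (h2.dvd_of_dvd_mul_left (h1 p hp)) _

/-- (Job S3b) For even `k`, `β` is admissible if the parities of the `β p` are the quadratic
characters of the primes of `Ps` modulo arbitrarily large primes `ℓ ≡ 1 (mod k)`.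
Proof. Let `γ^k = ∏ p^{c p}`.  By `two_mul_dvd`, `k ∣ 2 * c p`, so `c p = (k/2) * d p` for `p ∈ Ps`.
Let `R = ∏ p ∈ Ps, p ^ d p` (a natural number `≠ 0`).  `(γ^2 / R)^{k/2} = 1`, so `γ^2 = R ζ^{2j}` for
some `j` (`ζ` a primitive `k`-th root of unity in `F`, `ζ^2` is a primitive `(k/2)`-th root of unity),
and `δ = γ / ζ^j` satisfies `δ^2 = R`.  `isSquare_of_cyclotomic` gives `D`; take `ℓ > max D, all p ∈ Ps`
from `h`.  Then `R = ∏ p ^ d p` is a square in `ZMod ℓ`, so `1 = ∏ χ(p)^{d p}` for the quadratic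
character `χ` of `ZMod ℓ` (`p ≠ 0` in `ZMod ℓ` for `p ∈ Ps`), and `χ(p) = (-1)^{β p}`.  So
`∑ β p * d p` is even (`ℓ > 2`, `-1 ≠ 1`), i.e. `k = 2 (k/2)` divides
`∑ β p * c p = (k/2) ∑ β p * d p`. -/
theorem adm_of_symbols {k : ℕ} (hk0 : 0 < k) (hk : Even k) (Ps : Finset ℕ)
    (hPs : ∀ p ∈ Ps, p.Prime) (β : ℕ → ℕ)
    (h : ∀ D : ℕ, ∃ ℓ : ℕ, ℓ.Prime ∧ D < ℓ ∧ ℓ ≡ 1 [MOD k] ∧
      ∀ p ∈ Ps, (IsSquare ((p : ℕ) : ZMod ℓ) ↔ Even (β p))) : Adm k Ps β := by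
  intro F _ _ _ c γ hγ
  have hne : NeZero k := ⟨hk0.ne'⟩
  have h1 := two_mul_dvd k F Ps hPs c γ hγ
  obtain ⟨m, hm⟩ := hk
  have hm0 : 0 < m := by omega
  have hchar : CharZero F := charZero_of_injective_algebraMap (algebraMap ℚ F).injective
  have hζ := IsCyclotomicExtension.zeta_spec k ℚ F
  set ζ := IsCyclotomicExtension.zeta k ℚ F with hζdef
  have hd : ∀ p ∈ Ps, c p = c p / m * m := by
    intro p hp
    have h2 := h1 p hp
    rw [hm, ← two_mul] at h2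
    exact (Nat.div_mul_cancel (Nat.dvd_of_mul_dvd_mul_left two_pos h2)).symm
  set d : ℕ → ℕ := fun p => c p / m with hddef
  have hR : (∏ p ∈ Ps, p ^ c p : ℕ) = (∏ p ∈ Ps, p ^ d p) ^ m := by
    rw [← Finset.prod_pow]
    refine Finset.prod_congr rfl fun p hp => ?_
    rw [← pow_mul]
    exact congrArg _ (hd p hp)
  set R : ℕ := ∏ p ∈ Ps, p ^ d p with hRdef
  have hR0 : R ≠ 0 := Finset.prod_ne_zero_iff.mpr fun p hp => pow_ne_zero _ (hPs p hp).ne_zero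
  have hRF : (R : F) ≠ 0 := by exact_mod_cast hR0
  have h3 : (γ ^ 2 / (R : F)) ^ m = 1 := by
    rw [div_pow, ← pow_mul, show 2 * m = k by omega, hγ, hR]
    push_cast
    exact div_self (pow_ne_zero _ hRF)
  have hζ2 : IsPrimitiveRoot (ζ ^ 2) m := hζ.pow hk0 (by omega)
  have : NeZero m := ⟨hm0.ne'⟩
  obtain ⟨j, -, hj⟩ := hζ2.eq_pow_of_pow_eq_one h3
  have hζ0 : ζ ≠ 0 := hζ.ne_zero hk0.ne'
  have hδ : (γ / ζ ^ j) ^ 2 = ((R : ℕ) : F) := by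
    rw [div_pow, ← pow_mul, mul_comm j 2, pow_mul, hj]
    by_cases hg : γ = 0
    · exfalso
      rw [hg, zero_pow two_ne_zero, zero_div, zero_pow hm0.ne'] at h3
      exact zero_ne_one h3
    · field_simp
  obtain ⟨D, hD0, hD⟩ := isSquare_of_cyclotomic k F _ R hδ
  obtain ⟨ℓ, hℓ, hℓD, hℓk, hℓs⟩ := h (D + 2 + ∑ p ∈ Ps, p)
  have hFact : Fact ℓ.Prime := ⟨hℓ⟩
  have hsq := hD ℓ hℓ hℓk (fun hc => by
    have := Nat.le_of_dvd (Nat.pos_of_ne_zero hD0) hc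
    omega)
  have hp0 : ∀ p ∈ Ps, ((p : ℕ) : ZMod ℓ) ≠ 0 := by
    intro p hp hc
    rw [ZMod.natCast_eq_zero_iff] at hc
    have h4 := Nat.le_of_dvd (hPs p hp).pos hc
    have h5 : p ≤ ∑ p ∈ Ps, p := Finset.single_le_sum (f := fun p : ℕ => p) (fun _ _ => Nat.zero_le _) hp
    omega
  have hRe : ((R : ℕ) : ZMod ℓ) = ∏ p ∈ Ps, ((p : ℕ) : ZMod ℓ) ^ d p := by
    rw [hRdef]
    push_cast
    rfl
  have hRl0 : ((R : ℕ) : ZMod ℓ) ≠ 0 := by
    rw [hRe]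
    exact Finset.prod_ne_zero_iff.mpr fun p hp => pow_ne_zero _ (hp0 p hp)
  have hχR : quadraticChar (ZMod ℓ) ((R : ℕ) : ZMod ℓ) = 1 :=
    (quadraticChar_one_iff_isSquare hRl0).mpr hsq
  have hχp : ∀ p ∈ Ps, quadraticChar (ZMod ℓ) ((p : ℕ) : ZMod ℓ) = (-1) ^ β p := by
    intro p hp
    rcases Nat.even_or_odd (β p) with he | ho
    · rw [he.neg_one_pow]
      exact (quadraticChar_one_iff_isSquare (hp0 p hp)).mpr ((hℓs p hp).mpr he)
    · rw [ho.neg_one_pow]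
      refine quadraticChar_neg_one_iff_not_isSquare.mpr fun hc => ?_
      exact (Nat.not_even_iff_odd.mpr ho) ((hℓs p hp).mp hc)
  rw [hRe, map_prod] at hχR
  have h6 : (-1 : ℤ) ^ (∑ p ∈ Ps, β p * d p) = 1 := by
    rw [← Finset.prod_pow_eq_pow_sum]
    refine Eq.trans (Finset.prod_congr rfl fun p hp => ?_) hχR
    rw [map_pow, hχp p hp, ← pow_mul]
  have h7 : Even (∑ p ∈ Ps, β p * d p) := by
    by_contra hc
    rw [Nat.not_even_iff_odd] at hc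
    rw [hc.neg_one_pow] at h6
    norm_num at h6
  have h8 : ∑ p ∈ Ps, β p * c p = (∑ p ∈ Ps, β p * d p) * m := by
    rw [Finset.sum_mul]
    refine Finset.sum_congr rfl fun p hp => ?_
    rw [mul_assoc]
    exact congrArg _ (hd p hp)
  rw [h8, hm, ← two_mul]
  exact Nat.mul_dvd_mul h7.two_dvd (dvd_refl m)

end Pool.Agent.Lib.MP_fed790_nt
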