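import Pool.Agent.Lib.MP_fed790_nt.W.Defs

/-! Job T1 -/

namespace Pool.Agent.Lib.MP_fed790_nt

open Finset

/-- the square of `base k` -/
private def bsq (k : ℕ) : ℕ :=
  if 8 ∣ k then
    (if 3 ∣ k then 6 else if 5 ∣ k then 10 else if 7 ∣ k then 14 else 18)
  else if 4 ∣ k then
    (if 3 ∣ k then 12 else if 5 ∣ k then 20 else if 7 ∣ k then 28 else 36)
  else if 10 ∣ k then 20 else 36

private theorem sqrt_mul_sq (a b : ℕ) : √((a ^ 2 * b : ℕ) : ℝ) = a * √(b : ℝ) := by
  push_cast
  rw [Real.sqrt_mul (by positivity), Real.sqrt_sq (by positivity)]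

private theorem base_eq (k : ℕ) : base k = √(bsq k : ℝ) := by
  have h18 : √((18 : ℕ) : ℝ) = 3 * √2 := by
    have := sqrt_mul_sq 3 2; norm_num at this ⊢; exact this
  have h12 : √((12 : ℕ) : ℝ) = 2 * √3 := by
    have := sqrt_mul_sq 2 3; norm_num at this ⊢; exact this
  have h20 : √((20 : ℕ) : ℝ) = 2 * √5 := by
    have := sqrt_mul_sq 2 5; norm_num at this ⊢; exact this
  have h28 : √((28 : ℕ) : ℝ) = 2 * √7 := by
    have := sqrt_mul_sq 2 7; norm_num at this ⊢; exact this
  have h36 : √((36 : ℕ) : ℝ) = 6 := by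
    have := sqrt_mul_sq 6 1; norm_num at this ⊢
  unfold base bsq
  split_ifs
  · norm_num
  · norm_num
  · norm_num
  · exact h18.symm
  · exact h12.symm
  · exact h20.symm
  · exact h28.symm
  · exact h36.symm
  · exact h20.symm
  · exact h36.symm

private theorem bsq_le (k : ℕ) : bsq k ≤ 36 := by
  unfold bsq; split_ifs <;> norm_num

private theorem bsq_ge (k : ℕ) : 6 ≤ bsq k := by
  unfold bsq; split_ifs <;> norm_num

/-- the exponent `2 / aK` -/
private def ex (k p : ℕ) : ℕ :=
  if (2 ∣ k ∧ p ≠ 2 ∧ p ∣ k ∧ (4 ∣ k ∨ p % 4 = 1)) ∨ (p = 2 ∧ 8 ∣ k) then 1 else 2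

private theorem aK_eq_ex (k p : ℕ) : (aK k p = 2 ∧ ex k p = 1) ∨ (aK k p = 1 ∧ ex k p = 2) := by
  unfold aK ex
  simp only [even_iff_two_dvd]
  split_ifs <;> simp

private theorem log_div (k p : ℕ) :
    Real.log (p : ℝ) / (aK k p : ℝ) = Real.log ((p ^ ex k p : ℕ) : ℝ) / 2 := by
  rcases aK_eq_ex k p with ⟨h, h'⟩ | ⟨h, h'⟩
  · rw [h, h']; simp
  · rw [h, h']; simp

private theorem ex_pos (k p : ℕ) : 1 ≤ ex k p := by
  unfold ex; split_ifs <;> norm_num

private theorem le_pow_ex (k p : ℕ) : p ≤ p ^ ex k p :=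
  Nat.le_self_pow (by have := ex_pos k p; omega) p

private theorem key {k p q : ℕ} (hp : p.Prime) (hq : q.Prime) (hpq : p < q) :
    bsq k ≤ p ^ ex k p * q ^ ex k q := by
  have h2 := hp.two_le
  by_cases h : 36 ≤ p * q
  · exact (bsq_le k).trans (h.trans (Nat.mul_le_mul (le_pow_ex k p)
      (le_pow_ex k q)))
  · have hp5 : p ≤ 5 := by
      by_contra h'
      have : 6 * 6 ≤ p * q := Nat.mul_le_mul (by omega) (by omega)
      omega
    have hq17 : q ≤ 17 := by
      by_contra h'
      have : 2 * 18 ≤ p * q := Nat.mul_le_mul (by omega) (by omega)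
      omega
    interval_cases p <;> interval_cases q <;>
      first
      | (exfalso; revert hp; norm_num; done)
      | (exfalso; revert hq; norm_num; done)
      | (exfalso; omega)
      | (unfold bsq ex
         split_ifs <;> first | (norm_num; done) | (exfalso; omega))

/-- (Job T1a) The table of the rates for pairs.
Proof. For distinct primes `p = s 0`, `q = s 1` show
`log (base k) ≤ log p / aK k p + log q / aK k q`, i.e. with `f p = p ^ (1 / aK k p)` (`√p` or `p`)
`base k ≤ f p * f q`.  Always `f p ≥ √p`; `f p = p` unless (`p` odd, `p ∣ k`, and `4 ∣ k` or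
(`2 ∣ k`, `p % 4 = 1`)) or (`p = 2`, `8 ∣ k`).  W.l.o.g. `p < q`.  If `q ≥ 41` then
`f q ≥ √41 > 6.4`, `f p ≥ √2`, so `f p f q ≥ √82 > 9 ≥ base k`; in fact `base k ≤ 6`, so already
`p q ≥ 36` suffices: remaining cases `p q < 36`: `(2,3), (2,5), (2,7), (2,11), (2,13), (2,17),
(3,5), (3,7), (3,11), (5,7)`.  In each case distinguish `8 ∣ k`, `4 ∣ k`, `2 ∣ k`, and divisibility
by 3, 5, 7 (compare squares or fourth powers, all numbers are square roots of integers:
`f p f q ∈ {√(p q), p √q, q √p, p q}`). -/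
theorem lowSum_base {k : ℕ} (hk : 0 < k) : LowSum 2 (aK k) (Real.log (base k)) := by
  intro s hs hd
  have h0 := hs 0 (by norm_num)
  have h1 := hs 1 (by norm_num)
  have hne : s 0 ≠ s 1 := fun h => by
    have := hd 0 (by norm_num) 1 (by norm_num) h
    omega
  have hB : bsq k ≤ s 0 ^ ex k (s 0) * s 1 ^ ex k (s 1) := by
    rcases lt_or_gt_of_ne hne with h | h
    · exact key h0 h1 h
    · rw [mul_comm]; exact key h1 h0 h
  rw [Finset.sum_range_succ, Finset.sum_range_one, log_div, log_div, base_eq,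
    Real.log_sqrt (by positivity), ← add_div, ← Real.log_mul
      (by exact_mod_cast (pow_pos h0.pos _).ne') (by exact_mod_cast (pow_pos h1.pos _).ne')]
  have hb := bsq_ge k
  refine div_le_div_of_nonneg_right (Real.log_le_log (by exact_mod_cast (by omega : 0 < bsq k)) ?_)
    (by norm_num)
  exact_mod_cast hB

private theorem thirty {p q r : ℕ} (hp : p.Prime) (hq : q.Prime) (hr : r.Prime) (h1 : p ≠ q)
    (h2 : p ≠ r) (h3 : q ≠ r) : 30 ≤ p * q * r := by
  by_contra h
  have a1 := hp.two_le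
  have a2 := hq.two_le
  have a3 := hr.two_le
  have b1 : p ≤ 7 := by
    by_contra h'
    have : 8 * 2 * 2 ≤ p * q * r := Nat.mul_le_mul (Nat.mul_le_mul (by omega) a2) a3
    omega
  have b2 : q ≤ 7 := by
    by_contra h'
    have : 2 * 8 * 2 ≤ p * q * r := Nat.mul_le_mul (Nat.mul_le_mul a1 (by omega)) a3
    omega
  have b3 : r ≤ 7 := by
    by_contra h'
    have : 2 * 2 * 8 ≤ p * q * r := Nat.mul_le_mul (Nat.mul_le_mul a1 a2) (by omega)
    omega
  have c1 : p = 2 ∨ p = 3 ∨ p = 5 ∨ p = 7 := by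
    interval_cases p <;> first | omega | (exfalso; revert hp; norm_num; done)
  have c2 : q = 2 ∨ q = 3 ∨ q = 5 ∨ q = 7 := by
    interval_cases q <;> first | omega | (exfalso; revert hq; norm_num; done)
  have c3 : r = 2 ∨ r = 3 ∨ r = 5 ∨ r = 7 := by
    interval_cases r <;> first | omega | (exfalso; revert hr; norm_num; done)
  rcases c1 with rfl | rfl | rfl | rfl <;> rcases c2 with rfl | rfl | rfl | rfl <;>
    rcases c3 with rfl | rfl | rfl | rfl <;> omega

/-- (Job T1b) Triples, `k` odd: three distinct primes have product at least `30`. -/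
theorem lowSum_three {k : ℕ} (hk : Odd k) : LowSum 3 (aK k) (Real.log 30) := by
  intro s hs hd
  have h0 := hs 0 (by norm_num)
  have h1 := hs 1 (by norm_num)
  have h2 := hs 2 (by norm_num)
  have hne : ∀ i < 3, ∀ j < 3, i ≠ j → s i ≠ s j := fun i hi j hj hij h => hij (hd i hi j hj h)
  have hB := thirty h0 h1 h2 (hne 0 (by norm_num) 1 (by norm_num) (by norm_num))
    (hne 0 (by norm_num) 2 (by norm_num) (by norm_num))
    (hne 1 (by norm_num) 2 (by norm_num) (by norm_num))
  rw [Finset.sum_range_succ, Finset.sum_range_succ, Finset.sum_range_one, aK_odd hk, aK_odd hk,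
    aK_odd hk, Nat.cast_one, div_one, div_one, div_one,
    ← Real.log_mul (by exact_mod_cast h0.pos.ne') (by exact_mod_cast h1.pos.ne'),
    ← Real.log_mul (by exact_mod_cast (Nat.mul_pos h0.pos h1.pos).ne')
      (by exact_mod_cast h2.pos.ne')]
  exact Real.log_le_log (by norm_num) (by exact_mod_cast hB)

/-- (Job T1c) `base k` takes finitely many values, all in `(1, 6]`. -/
theorem base_mem (k : ℕ) : base k ∈ ({√6, √10, √14, 3 * √2, 2 * √3, 2 * √5, 2 * √7, 6} : Finset ℝ) ∧
    1 < base k ∧ base k ≤ 6 := by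
  refine ⟨?_, ?_, ?_⟩
  · unfold base
    split_ifs <;> simp
  · rw [base_eq]
    have h := bsq_ge k
    have h' : (6 : ℝ) ≤ bsq k := by exact_mod_cast h
    rw [Real.lt_sqrt (by norm_num)]
    linarith
  · rw [base_eq]
    have h := bsq_le k
    have h' : (bsq k : ℝ) ≤ 36 := by exact_mod_cast h
    rw [Real.sqrt_le_left (by norm_num)]
    linarith

end Pool.Agent.Lib.MP_fed790_nt
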